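import Mathlib

/-!
# RN, certificate plan: rows, sign-lexicographic comparison, row certificates

A letter of a thick word carries its integer position, the level and the sign of its bit and one
potential for every level.  The certificate of a row only sees the legs of this row.
-/

set_option autoImplicit false

namespace H73RN

/-- names of rows: `top r D`, `bot r D` are the rows created at level `D` above / below `r` -/
inductive Row : Type
  | root : Row
  | top : Row → ℕ → Row
  | bot : Row → ℕ → Row
  deriving DecidableEq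

/-- rows created before level `D` have `lv ≤ D` -/
def Row.lv : Row → ℕ
  | Row.root => 0
  | Row.top _ l => l + 1
  | Row.bot _ l => l + 1

/-- a letter: a leaf on the row `lo` (`hi = none`) or a bridge between the rows `lo` and `hi` -/
structure Ltr where
  /-- row of the lower hub -/
  lo : Row
  /-- row of the upper hub of a bridge -/
  hi : Option Row
  /-- constant of the lower hub -/
  c : ℤ
  /-- constant of the upper hub -/
  c' : ℤ
  /-- position -/
  x : ℤ
  /-- level of the bit -/
  lev : ℕ
  /-- the bit is `1` iff `s lev = eps` -/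
  eps : Bool
  /-- the potentials of the levels -/
  p : ℕ → ℤ

/-- the bit of a letter at the spot `s`: the lower hub takes the leg iff the bit is `1` -/
def Ltr.y (e : Ltr) (s : ℕ → Bool) : ℤ := if s e.lev = e.eps then 1 else 0

/-- the view of a letter from a row -/
structure Leg where
  /-- increment of the flow -/
  inc : (ℕ → Bool) → ℤ
  /-- potentials -/
  p : ℕ → ℤ

/-- the leg of the letter `e` on the row `r`, with its position -/
def leg (r : Row) (e : Ltr) : Option (Leg × ℤ) :=
  if e.lo = r then some (⟨fun s => e.c - e.y s, e.p⟩, e.x)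
  else if e.hi = some r then some (⟨fun s => e.c' - 1 + e.y s, e.p⟩, e.x)
  else none

/-- the legs of the row `r` -/
def legs (r : Row) (W : List Ltr) : List (Leg × ℤ) := W.filterMap (leg r)

/-- sign-lexicographic comparison of the digits `s`, `s'` with respect to `Δ`, highest level first -/
def LexLe : ℕ → (ℕ → ℤ) → (ℕ → Bool) → (ℕ → Bool) → Prop
  | 0, _, _, _ => True
  | n + 1, Δ, s, s' =>
      (0 < Δ n ∧ s n = false ∧ s' n = true) ∨ (Δ n < 0 ∧ s n = true ∧ s' n = false) ∨
        ((Δ n = 0 ∨ s n = s' n) ∧ LexLe n Δ s s')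

/-- the certificate of a row: flow between `0` and `m` and monotone in the lexicographic sense -/
def Cert (D : ℕ) (m : ℤ) : ((ℕ → Bool) → ℤ) → (ℕ → ℤ) → List Leg → Prop
  | _, _, [] => True
  | k, q, g :: L =>
      (∀ s, 0 ≤ k s ∧ k s ≤ m) ∧ (∀ s s', k s < k s' → LexLe D (fun l => g.p l - q l) s s') ∧
        Cert D m (fun s => k s + g.inc s) g.p L

/-- flow after the legs `L` -/
def flow (k : (ℕ → Bool) → ℤ) : List Leg → (ℕ → Bool) → ℤ
  | [] => k
  | g :: L => flow (fun s => k s + g.inc s) L

/-- potential of the last leg -/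
def lastp (q : ℕ → ℤ) : List Leg → (ℕ → ℤ)
  | [] => q
  | g :: L => lastp g.p L

/-- new potential: old ones scaled by ten, the value `v` at the new level `D` -/
def up (D : ℕ) (p : ℕ → ℤ) (v : ℤ) : ℕ → ℤ := Function.update (fun l => 10 * p l) D v

/-- digit as an integer -/
def dg (D : ℕ) (s : ℕ → Bool) : ℤ := if s D = true then 1 else 0

lemma dg_nonneg (D : ℕ) (s : ℕ → Bool) : 0 ≤ dg D s := by unfold dg; split_ifs <;> omega
lemma dg_le (D : ℕ) (s : ℕ → Bool) : dg D s ≤ 1 := by unfold dg; split_ifs <;> omega
lemma y_nonneg (e : Ltr) (s : ℕ → Bool) : 0 ≤ e.y s := by unfold Ltr.y; split_ifs <;> omega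
lemma y_le (e : Ltr) (s : ℕ → Bool) : e.y s ≤ 1 := by unfold Ltr.y; split_ifs <;> omega

/-! ### lexicographic comparison -/

lemma LexLe_congr {D : ℕ} {Δ Δ' : ℕ → ℤ} {s s' : ℕ → Bool} (h : ∀ l < D, Δ l = Δ' l) :
    LexLe D Δ s s' ↔ LexLe D Δ' s s' := by
  induction D with
  | zero => simp [LexLe]
  | succ n ih =>
    unfold LexLe
    rw [h n (Nat.lt_succ_self n), ih (fun l hl => h l (Nat.lt_succ_of_lt hl))]

lemma LexLe_scale {D : ℕ} {Δ : ℕ → ℤ} {s s' : ℕ → Bool} :
    LexLe D (fun l => 10 * Δ l) s s' ↔ LexLe D Δ s s' := by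
  induction D with
  | zero => simp [LexLe]
  | succ n ih =>
    unfold LexLe
    rw [ih]
    have h1 : (0 < 10 * Δ n) ↔ 0 < Δ n := by omega
    have h2 : (10 * Δ n < 0) ↔ Δ n < 0 := by omega
    have h3 : (10 * Δ n = 0) ↔ Δ n = 0 := by omega
    rw [h1, h2, h3]

lemma LexLe_zero {D : ℕ} {Δ : ℕ → ℤ} {s s' : ℕ → Bool} (h : ∀ l < D, Δ l = 0) :
    LexLe D Δ s s' := by
  induction D with
  | zero => simp [LexLe]
  | succ n ih =>
    unfold LexLe
    exact Or.inr (Or.inr ⟨Or.inl (h n (Nat.lt_succ_self n)),
      ih (fun l hl => h l (Nat.lt_succ_of_lt hl))⟩)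

/-- the differences of lifted potentials -/
lemma LexLe_up {D : ℕ} {p q : ℕ → ℤ} {v w : ℤ} {s s' : ℕ → Bool} :
    LexLe (D + 1) (fun l => up D p v l - up D q w l) s s' ↔
      (w < v ∧ s D = false ∧ s' D = true) ∨ (v < w ∧ s D = true ∧ s' D = false) ∨
        ((v = w ∨ s D = s' D) ∧ LexLe D (fun l => p l - q l) s s') := by
  have h1 : LexLe D (fun l => up D p v l - up D q w l) s s' ↔
      LexLe D (fun l => p l - q l) s s' := by
    rw [← LexLe_scale (Δ := fun l => p l - q l)]
    apply LexLe_congr
    intro l hl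
    have : l ≠ D := by omega
    simp only [up, Function.update_of_ne this]
    ring
  have h2 : LexLe (D + 1) (fun l => up D p v l - up D q w l) s s' ↔
      ((0 < up D p v D - up D q w D ∧ s D = false ∧ s' D = true) ∨
       (up D p v D - up D q w D < 0 ∧ s D = true ∧ s' D = false) ∨
        ((up D p v D - up D q w D = 0 ∨ s D = s' D) ∧
          LexLe D (fun l => up D p v l - up D q w l) s s')) := Iff.rfl
  rw [h2, h1]
  simp only [up, Function.update_self, sub_pos, sub_neg, sub_eq_zero]

/-! ### certificates -/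

lemma Cert_append {D : ℕ} {m : ℤ} (L1 L2 : List Leg) :
    ∀ (k : (ℕ → Bool) → ℤ) (q : ℕ → ℤ), Cert D m k q (L1 ++ L2) ↔
      Cert D m k q L1 ∧ Cert D m (flow k L1) (lastp q L1) L2 := by
  induction L1 with
  | nil => intro k q; simp [Cert, flow, lastp]
  | cons g L1 ih =>
    intro k q
    simp only [List.cons_append, Cert, flow, lastp, ih]
    tauto

lemma flow_append (L1 L2 : List Leg) :
    ∀ (k : (ℕ → Bool) → ℤ), flow k (L1 ++ L2) = flow (flow k L1) L2 := by
  induction L1 with
  | nil => intro k; rfl
  | cons g L1 ih => intro k; simp only [List.cons_append, flow, ih]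

lemma flow_add (L : List Leg) : ∀ (k k' : (ℕ → Bool) → ℤ) (s : ℕ → Bool),
    flow (fun s => k s + k' s) L s = flow k L s + k' s := by
  induction L with
  | nil => intro k k' s; rfl
  | cons g L ih =>
    intro k k' s
    simp only [flow]
    have : (fun s => k s + k' s + g.inc s) = (fun s => (k s + g.inc s) + k' s) := by
      funext s; ring
    rw [this, ih]

/-- only the increments matter for the flow -/
lemma flow_map_p (f : Leg → Leg) (hf : ∀ g, (f g).inc = g.inc) (L : List Leg) :
    ∀ k, flow k (L.map f) = flow k L := by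
  induction L with
  | nil => intro k; rfl
  | cons g L ih => intro k; simp only [List.map_cons, flow, ih, hf]

lemma Cert_zero {D : ℕ} {m : ℤ} {k : (ℕ → Bool) → ℤ} {q q' : ℕ → ℤ} {L : List Leg}
    (hk : ∀ s s', k s = k s') (h : Cert D m k q L) : Cert D m k q' L := by
  cases L with
  | nil => trivial
  | cons g L =>
    refine ⟨h.1, ?_, h.2.2⟩
    intro s s' hs
    exact absurd (hk s s') (ne_of_lt hs)

/-- static row -/
lemma Cert_static {D : ℕ} {m : ℤ} (S : ℤ) (L : List Leg) :
    ∀ (k : (ℕ → Bool) → ℤ) (q : ℕ → ℤ), Cert D m k q L →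
      Cert (D + 1) m k (up D q S) (L.map (fun g => ⟨g.inc, up D g.p S⟩)) := by
  induction L with
  | nil => intro k q _; trivial
  | cons g L ih =>
    intro k q h
    refine ⟨h.1, ?_, ih _ _ h.2.2⟩
    intro s s' hs
    rw [LexLe_up]
    exact Or.inr (Or.inr ⟨Or.inl rfl, h.2.1 s s' hs⟩)

/-- young row, middle part -/
lemma Cert_young {D : ℕ} {m : ℤ} (L : List (Leg × ℤ)) :
    ∀ (k : (ℕ → Bool) → ℤ) (q : ℕ → ℤ) (w : ℤ), (∀ g ∈ L, w < 10 * g.2) →
      L.Pairwise (fun a b => a.2 < b.2) →
      Cert D m k q (L.map Prod.fst) →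
      Cert (D + 1) (2 * m) (fun s => k s + m * dg D s) (up D q w)
        (L.map (fun g => ⟨g.1.inc, up D g.1.p (10 * g.2)⟩)) := by
  induction L with
  | nil => intro k q w _ _ _; trivial
  | cons g L ih =>
    intro k q w hw hp h
    simp only [List.map_cons, Cert] at h ⊢
    rw [List.pairwise_cons] at hp
    have hw0 : w < 10 * g.2 := hw g (by simp)
    have h1 := h.1
    refine ⟨?_, ?_, ?_⟩
    · intro s
      have h0 := dg_nonneg D s
      have h2 := dg_le D s
      have h3 := h1 s
      have hm : 0 ≤ m := le_trans h3.1 h3.2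
      constructor
      · nlinarith
      · nlinarith
    · intro s s' hs
      rw [LexLe_up]
      have h3 := h1 s
      have h4 := h1 s'
      by_cases hs1 : s D = true
      · by_cases hs2 : s' D = true
        · have e1 : dg D s = 1 := by simp [dg, hs1]
          have e2 : dg D s' = 1 := by simp [dg, hs2]
          rw [e1, e2] at hs
          exact Or.inr (Or.inr ⟨Or.inr (by rw [hs1, hs2]), h.2.1 s s' (by linarith)⟩)
        · have e1 : dg D s = 1 := by simp [dg, hs1]
          have e2 : dg D s' = 0 := by simp [dg, hs2]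
          rw [e1, e2] at hs
          exfalso
          linarith [h3.1, h4.2]
      · by_cases hs2 : s' D = true
        · exact Or.inl ⟨hw0, by simpa using hs1, hs2⟩
        · have e1 : dg D s = 0 := by simp [dg, hs1]
          have e2 : dg D s' = 0 := by simp [dg, hs2]
          rw [e1, e2] at hs
          have e3 : s D = s' D := by
            simp only [Bool.not_eq_true] at hs1 hs2
            rw [hs1, hs2]
          exact Or.inr (Or.inr ⟨Or.inr e3, h.2.1 s s' (by linarith)⟩)
    · have h5 := ih (fun s => k s + g.1.inc s) g.1.p (10 * g.2)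
        (fun g' hg' => by have := hp.1 g' hg'; omega) hp.2 h.2.2
      have h6 : (fun s => k s + m * dg D s + g.1.inc s) =
          (fun s => (k s + g.1.inc s) + m * dg D s) := by funext s; ring
      rw [h6]
      exact h5

/-- start letters: `n` legs with increment `dg D` and increasing potentials -/
lemma Cert_start {D : ℕ} {M : ℤ} (A : List ℤ) :
    ∀ (i w : ℤ), 0 ≤ i → i + A.length ≤ M → (∀ a ∈ A, w < a) → A.Pairwise (· < ·) →
      Cert (D + 1) M (fun s => i * dg D s) (up D 0 w)
        (A.map (fun a => ⟨dg D, up D 0 a⟩)) := by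
  induction A with
  | nil => intro i w _ _ _ _; trivial
  | cons a A ih =>
    intro i w hi hM hw hp
    rw [List.pairwise_cons] at hp
    rw [List.length_cons] at hM
    push_cast at hM
    simp only [List.map_cons, Cert]
    refine ⟨?_, ?_, ?_⟩
    · intro s
      have h0 := dg_nonneg D s
      have h2 := dg_le D s
      have h3 : (0 : ℤ) ≤ (A.length : ℤ) := by positivity
      constructor
      · positivity
      · nlinarith
    · intro s s' hs
      rw [LexLe_up]
      left
      refine ⟨hw a (by simp), ?_, ?_⟩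
      · by_contra hc
        have e1 : dg D s = 1 := by simp [dg, (by simpa using hc : s D = true)]
        rw [e1] at hs
        have := dg_le D s'
        nlinarith
      · by_contra hc
        have e1 : dg D s' = 0 := by simp [dg, hc]
        rw [e1] at hs
        have := dg_nonneg D s
        nlinarith
    · have h5 := ih (i + 1) a (by omega) (by omega) hp.1 hp.2
      have h6 : (fun s => i * dg D s + dg D s) = (fun s => (i + 1) * dg D s) := by
        funext s; ring
      rw [h6]
      exact h5

lemma flow_start {D : ℕ} (A : List ℤ) : ∀ (k : (ℕ → Bool) → ℤ) (s : ℕ → Bool),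
    flow k (A.map (fun a => (⟨dg D, up D 0 a⟩ : Leg))) s = k s + A.length * dg D s := by
  induction A with
  | nil => intro k s; simp [flow]
  | cons a A ih =>
    intro k s
    simp only [List.map_cons, flow, ih, List.length_cons]
    push_cast
    ring

/-- end letters: `n` legs with increment `- dg D` and constant potential -/
lemma Cert_end_aux {D : ℕ} {M : ℤ} (b : ℤ) (n : ℕ) :
    ∀ (q : ℕ → ℤ), ((n : ℤ) ≤ M) →
      (∀ s s' : ℕ → Bool, s D = false → s' D = true →
        LexLe (D + 1) (fun l => up D 0 b l - q l) s s') →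
      Cert (D + 1) M (fun s => n * dg D s) q
        (List.replicate n ⟨fun s => - dg D s, up D 0 b⟩) := by
  induction n with
  | zero => intro q _ _; trivial
  | succ n ih =>
    intro q hM hq
    push_cast at hM
    rw [List.replicate_succ]
    simp only [Cert]
    refine ⟨?_, ?_, ?_⟩
    · intro s
      have h0 := dg_nonneg D s
      have h2 := dg_le D s
      have h3 : (0 : ℤ) ≤ (n : ℤ) := by positivity
      push_cast
      constructor
      · positivity
      · nlinarith
    · intro s s' hs
      push_cast at hs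
      have h3 : (0 : ℤ) < (n : ℤ) + 1 := by positivity
      have hlt : dg D s < dg D s' := lt_of_mul_lt_mul_left hs h3.le
      refine hq s s' ?_ ?_
      · by_contra hc
        have e1 : dg D s = 1 := by simp [dg, (by simpa using hc : s D = true)]
        have := dg_le D s'
        omega
      · by_contra hc
        have e1 : dg D s' = 0 := by simp [dg, hc]
        have := dg_nonneg D s
        omega
    · have h5 := ih (up D 0 b) (by omega) (by
        intro s s' _ _
        apply LexLe_zero
        intro l _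
        simp)
      have h6 : (fun s => ((n + 1 : ℕ) : ℤ) * dg D s + -dg D s) = (fun s => (n : ℤ) * dg D s) := by
        funext s; push_cast; ring
      rw [h6]
      exact h5

lemma flow_end {D : ℕ} (b : ℤ) (n : ℕ) : ∀ (k : (ℕ → Bool) → ℤ) (s : ℕ → Bool),
    flow k (List.replicate n (⟨fun s => - dg D s, up D 0 b⟩ : Leg)) s = k s - n * dg D s := by
  induction n with
  | zero => intro k s; simp [flow]
  | succ n ih =>
    intro k s
    rw [List.replicate_succ]
    simp only [flow, ih]
    push_cast
    ring

/-- the four legs of a converter on its new row; `z` is the content of the middle wire -/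
def conv (D : ℕ) (z : (ℕ → Bool) → ℤ) (p : ℕ → ℤ) (S v : ℤ) : List Leg :=
  [⟨dg D, up D p S⟩, ⟨z, up D p S⟩, ⟨fun s => - z s, up D p v⟩, ⟨fun s => - dg D s, up D p v⟩]

lemma flow_conv (D : ℕ) (z : (ℕ → Bool) → ℤ) (p : ℕ → ℤ) (S v : ℤ) (k : (ℕ → Bool) → ℤ) :
    flow k (conv D z p S v) = k := by
  funext s
  simp only [conv, flow]
  ring

lemma Cert_conv {D : ℕ} {z : (ℕ → Bool) → ℤ} (hz : ∀ s, 0 ≤ z s ∧ z s ≤ 1) (p : ℕ → ℤ)
    {S v : ℤ} (hSv : S < v) (q : ℕ → ℤ) :
    Cert (D + 1) 2 (fun _ => 0) q (conv D z p S v) := by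
  have hcase : ∀ s : ℕ → Bool, (s D = true ∧ dg D s = 1) ∨ (s D = false ∧ dg D s = 0) := by
    intro s
    by_cases h : s D = true
    · left; exact ⟨h, by simp [dg, h]⟩
    · right; exact ⟨by simpa using h, by simp [dg, h]⟩
  simp only [conv, Cert, zero_add]
  refine ⟨fun s => by norm_num, fun s s' h => absurd h (lt_irrefl _), ?_, ?_, ?_, ?_, ?_, ?_, trivial⟩
  · intro s
    have h0 := dg_nonneg D s
    have h2 := dg_le D s
    omega
  · intro s s' _
    apply LexLe_zero
    intro l _
    simp
  · intro s
    have h0 := dg_nonneg D s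
    have h2 := dg_le D s
    have := hz s
    omega
  · intro s s' h
    rw [LexLe_up]
    have h1 := hz s
    have h2 := hz s'
    have h0 : LexLe D (fun l => p l - p l) s s' := by
      apply LexLe_zero
      intro l _
      simp
    rcases hcase s with ⟨a1, a2⟩ | ⟨a1, a2⟩ <;> rcases hcase s' with ⟨b1, b2⟩ | ⟨b1, b2⟩
    · exact Or.inr (Or.inr ⟨Or.inr (by rw [a1, b1]), h0⟩)
    · exfalso; rw [a2, b2] at h; omega
    · exact Or.inl ⟨hSv, a1, b1⟩
    · exact Or.inr (Or.inr ⟨Or.inr (by rw [a1, b1]), h0⟩)
  · intro s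
    have h0 := dg_nonneg D s
    have h2 := dg_le D s
    omega
  · intro s s' _
    apply LexLe_zero
    intro l _
    simp

/-- a row all of whose legs come in converter blocks -/
lemma Cert_convs {D : ℕ} {ι : Type} (Z : ι → (ℕ → Bool) → ℤ) (P : ι → ℕ → ℤ) (v : ι → ℤ)
    (S : ℤ) (I : List ι) (hz : ∀ i ∈ I, ∀ s, 0 ≤ Z i s ∧ Z i s ≤ 1) (hv : ∀ i ∈ I, S < v i) :
    ∀ q : ℕ → ℤ, Cert (D + 1) 2 (fun _ => 0) q (I.flatMap (fun i => conv D (Z i) (P i) S (v i))) := by
  induction I with
  | nil => intro q; trivial
  | cons i I ih =>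
    intro q
    rw [List.flatMap_cons, Cert_append, flow_conv]
    exact ⟨Cert_conv (hz i (by simp)) (P i) (hv i (by simp)) q,
      ih (fun j hj => hz j (by simp [hj])) (fun j hj => hv j (by simp [hj])) _⟩

lemma flow_convs {D : ℕ} {ι : Type} (Z : ι → (ℕ → Bool) → ℤ) (P : ι → ℕ → ℤ) (v : ι → ℤ)
    (S : ℤ) (I : List ι) :
    ∀ k, flow k (I.flatMap (fun i => conv D (Z i) (P i) S (v i))) = k := by
  induction I with
  | nil => intro k; rfl
  | cons i I ih =>
    intro k
    rw [List.flatMap_cons, flow_append, flow_conv, ih]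

end H73RN
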