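import Pool.Agent.H73.RN.ToClaim

/-!
# Epochs and the count
-/

set_option autoImplicit false

namespace H73RN

open Pool.Agent.RN (Word Kind GC Claim)

/-- number of static ends of a letter -/
def port (st : Row → Bool) (e : Ltr) : ℕ :=
  (if st e.lo = true then 1 else 0) +
    match e.hi with
    | some b => if st b = true then 1 else 0
    | none => 0

/-- number of static ports of a word -/
def ports (st : Row → Bool) (W : List Ltr) : ℕ := (W.map (port st)).sum

lemma ports_append (st : Row → Bool) (A B : List Ltr) :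
    ports st (A ++ B) = ports st A + ports st B := by
  simp [ports]

lemma block_length (D : ℕ) (st : Row → Bool) (S : ℤ) (e : Ltr) :
    (block D st S e).length = 1 + 3 * port st e := by
  cases hhi : e.hi with
  | none => by_cases hs : st e.lo = true <;> simp [block, port, hhi, hs]
  | some b =>
    by_cases hs : st e.lo = true <;> by_cases hs' : st b = true <;>
      simp [block, port, hhi, hs, hs']

lemma block_ports (D : ℕ) (st : Row → Bool) (S : ℤ) (e : Ltr)
    (h1 : ∀ r, st (Row.top r D) = false) (h2 : ∀ r, st (Row.bot r D) = false) :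
    ports st (block D st S e) = port st e := by
  cases hhi : e.hi with
  | none =>
    by_cases hs : st e.lo = true <;>
      simp [block, ports, port, hhi, hs, srcL, snkL, h1]
  | some b =>
    by_cases hs : st e.lo = true <;> by_cases hs' : st b = true <;>
      simp [block, ports, port, hhi, hs, hs', srcL, snkL, h1, h2]

lemma starts_length (D : ℕ) (Y : List Row) : ∀ a, (starts D Y a).length = Y.length := by
  induction Y with
  | nil => intro a; rfl
  | cons r Y ih => intro a; simp [starts, ih]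

lemma ends_length (D : ℕ) (B : ℤ) (Y : List Row) : ∀ a, (ends D B Y a).length = Y.length := by
  induction Y with
  | nil => intro a; rfl
  | cons r Y ih => intro a; simp [ends, ih]

lemma starts_ports (D : ℕ) (st : Row → Bool) (Y : List Row) (hY : ∀ r ∈ Y, st r = false) :
    ∀ a, ports st (starts D Y a) = 0 := by
  induction Y with
  | nil => intro a; rfl
  | cons r Y ih =>
    intro a
    have h1 := ih (fun r hr => hY r (by simp [hr])) (a + 1)
    have h2 := hY r (by simp)
    simp only [ports, starts, List.map_cons, List.sum_cons] at h1 ⊢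
    rw [h1]
    simp [port, srcL, h2]

lemma ends_ports (D : ℕ) (B : ℤ) (st : Row → Bool) (Y : List Row) (hY : ∀ r ∈ Y, st r = false) :
    ∀ a, ports st (ends D B Y a) = 0 := by
  induction Y with
  | nil => intro a; rfl
  | cons r Y ih =>
    intro a
    have h1 := ih (fun r hr => hY r (by simp [hr])) (a + 1)
    have h2 := hY r (by simp)
    simp only [ports, ends, List.map_cons, List.sum_cons] at h1 ⊢
    rw [h1]
    simp [port, snkL, h2]

lemma flatMap_length (D : ℕ) (st : Row → Bool) (S : ℤ) (W : List Ltr) :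
    (W.flatMap (block D st S)).length = W.length + 3 * ports st W := by
  induction W with
  | nil => rfl
  | cons e W ih =>
    rw [List.flatMap_cons, List.length_append, ih, block_length]
    simp only [ports, List.map_cons, List.sum_cons, List.length_cons]
    ring

lemma flatMap_ports (D : ℕ) (st : Row → Bool) (S : ℤ) (W : List Ltr)
    (h1 : ∀ r, st (Row.top r D) = false) (h2 : ∀ r, st (Row.bot r D) = false) :
    ports st (W.flatMap (block D st S)) = ports st W := by
  induction W with
  | nil => rfl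
  | cons e W ih =>
    rw [List.flatMap_cons, ports_append, ih, block_ports D st S e h1 h2]
    simp only [ports, List.map_cons, List.sum_cons]

lemma ports_le (st : Row → Bool) (W : List Ltr) : ports st W ≤ 2 * W.length := by
  induction W with
  | nil => simp [ports]
  | cons e W ih =>
    simp only [ports, List.map_cons, List.sum_cons, List.length_cons] at ih ⊢
    have : port st e ≤ 2 := by
      unfold port
      cases e.hi with
      | none => split_ifs <;> simp
      | some b => simp only; split_ifs <;> simp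
    omega

/-- static rows of an epoch -/
def epst (D0 : ℕ) (r : Row) : Bool := decide (r.lv ≤ D0)

/-- the invariant of an epoch starting from `N0` at level `D0`, after `i ≤ K` steps -/
structure Epo (K D0 i : ℕ) (N0 N : Net) : Prop where
  good : Good (D0 + i) N
  rst : (N.R.filter (epst D0)).length = N0.R.length
  rlen : N.R.length = N0.R.length + 2 * i * N0.R.length
  prt : ports (epst D0) N.W ≤ 2 * N0.W.length
  capo : ∀ r ∈ N.R, N.m r ≤ max 2 (2 ^ K)
  capy : ∀ r ∈ N.R, D0 < r.lv → N.m r ≤ 2 ^ i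
  wlen : N.W.length ≤ N0.W.length +
    i * (6 * N0.W.length + 2 * ((2 * K + 1) * N0.R.length * 2 ^ K))
  leaf : ∀ l < D0 + i, ∃ e ∈ N.W, e.hi = none ∧ e.lev = l
  stat : ∃ e ∈ N.W, epst D0 e.lo = true

lemma ys_length_le {N : Net} {st : Row → Bool} {b : ℕ} (h : ∀ r ∈ N.R, st r = false → N.m r ≤ b) :
    (N.ys st).length ≤ N.R.length * b := by
  unfold Net.ys
  generalize N.R = R at h
  induction R with
  | nil => simp
  | cons r R ih =>
    rw [List.flatMap_cons, List.length_append, List.length_cons, Nat.add_mul, one_mul, add_comm]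
    have h1 := ih (fun r hr => h r (by simp [hr]))
    have h2 : (if st r = true then [] else List.replicate (N.m r) r).length ≤ b := by
      by_cases hs : st r = true
      · simp [hs]
      · simp only [hs, Bool.false_eq_true, if_false, List.length_replicate]
        exact h r (by simp) (by simpa using hs)
    omega

lemma blockR_filter (D : ℕ) (st : Row → Bool) (R : List Row)
    (h1 : ∀ r, st (Row.top r D) = false) (h2 : ∀ r, st (Row.bot r D) = false) :
    ((R.flatMap (blockR D st)).filter st).length = (R.filter st).length ∧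
      (R.flatMap (blockR D st)).length = R.length + 2 * (R.filter st).length := by
  induction R with
  | nil => simp
  | cons r R ih =>
    rw [List.flatMap_cons, List.filter_append, List.length_append, List.length_append, ih.1, ih.2]
    by_cases hs : st r = true
    · simp [blockR, hs, h1, h2]
      omega
    · simp [blockR, hs]
      omega

lemma leaf_persist {D : ℕ} {st : Row → Bool} {S : ℤ} {e : Ltr} (he : e.hi = none) :
    ∃ f ∈ block D st S e, f.hi = none ∧ f.lev = e.lev := by
  by_cases hs : st e.lo = true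
  · refine ⟨⟨Row.top e.lo D, none, 0, 0, 10 * e.x, e.lev, e.eps, up D e.p (10 * e.x)⟩, ?_, rfl, rfl⟩
    simp [block, he, hs]
  · refine ⟨⟨e.lo, none, e.c, e.c', 10 * e.x, e.lev, e.eps, up D e.p (10 * e.x)⟩, ?_, rfl, rfl⟩
    simp [block, he, hs]

lemma leaf_new {D : ℕ} {st : Row → Bool} {S : ℤ} {e : Ltr} (hs : st e.lo = true) :
    (∃ f ∈ block D st S e, f.hi = none ∧ f.lev = D) ∧ (∃ f ∈ block D st S e, f.lo = e.lo) := by
  cases hhi : e.hi with
  | none =>
    refine ⟨⟨srcL D (Row.top e.lo D) (10 * e.x - 2) (up D e.p S), ?_, rfl, rfl⟩,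
      ⟨⟨e.lo, some (Row.top e.lo D), e.c, 1, 10 * e.x - 1, e.lev, e.eps, up D e.p S⟩, ?_, rfl⟩⟩
    · simp [block, hhi, hs]
    · simp [block, hhi, hs]
  | some b =>
    by_cases hs' : st b = true
    · refine ⟨⟨srcL D (Row.top e.lo D) (10 * e.x - 4) (up D e.p S), ?_, rfl, rfl⟩,
        ⟨⟨e.lo, some (Row.top e.lo D), e.c, 1, 10 * e.x - 2, e.lev, e.eps, up D e.p S⟩, ?_, rfl⟩⟩
      · simp [block, hhi, hs, hs']
      · simp [block, hhi, hs, hs']
    · refine ⟨⟨srcL D (Row.top e.lo D) (10 * e.x - 2) (up D e.p S), ?_, rfl, rfl⟩,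
        ⟨⟨e.lo, some (Row.top e.lo D), e.c, 1, 10 * e.x - 1, e.lev, e.eps, up D e.p S⟩, ?_, rfl⟩⟩
      · simp [block, hhi, hs, hs']
      · simp [block, hhi, hs, hs']

lemma mem_step_of_block {D : ℕ} {st : Row → Bool} {N : Net} {e f : Ltr} (he : e ∈ N.W)
    (hf : f ∈ block D st (-(10 * N.X + 5)) e) : f ∈ (N.step D st).W := by
  simp only [Net.step, List.mem_append, List.mem_flatMap]
  exact Or.inr (Or.inl ⟨e, he, hf⟩)

theorem Epo.succ {K D0 i : ℕ} {N0 N : Net} (h : Epo K D0 i N0 N) (hi : i < K) :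
    Epo K D0 (i + 1) N0 (N.step (D0 + i) (epst D0)) := by
  have ht : ∀ r, epst D0 (Row.top r (D0 + i)) = false := by
    intro r; simp [epst, Row.lv]
  have hb : ∀ r, epst D0 (Row.bot r (D0 + i)) = false := by
    intro r; simp [epst, Row.lv]
  have hR := blockR_filter (D0 + i) (epst D0) N.R ht hb
  have hys : (N.ys (epst D0)).length ≤ N.R.length * 2 ^ i := by
    apply ys_length_le
    intro r hr hs
    exact h.capy r hr (by simpa [epst] using hs)
  have hcap : ∀ r ∈ (N.step (D0 + i) (epst D0)).R,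
      (r ∈ N.R ∧ r.lv ≤ D0 + i) ∨ (D0 + i + 1 ≤ r.lv) := by
    intro r hr
    simp only [Net.step, List.mem_flatMap] at hr
    obtain ⟨r', hr', hr⟩ := hr
    unfold blockR at hr
    split_ifs at hr <;> simp only [List.mem_cons, List.not_mem_nil, or_false] at hr
    · rcases hr with rfl | rfl | rfl
      · right; simp [Row.lv]
      · left; exact ⟨hr', h.good.fresh _ hr'⟩
      · right; simp [Row.lv]
    · subst hr
      left; exact ⟨hr', h.good.fresh _ hr'⟩
  have hcapy : ∀ r ∈ (N.step (D0 + i) (epst D0)).R, D0 < r.lv →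
      (N.step (D0 + i) (epst D0)).m r ≤ 2 ^ (i + 1) := by
    intro r hr hlv
    have hp : 1 ≤ 2 ^ i := Nat.one_le_two_pow
    rcases hcap r hr with ⟨h1, h2⟩ | h1
    · simp only [Net.step]
      rw [if_neg (by omega), if_neg (by simp [epst]; omega)]
      have := h.capy r h1 hlv
      rw [pow_succ]
      omega
    · simp only [Net.step]
      rw [if_pos h1, pow_succ]
      omega
  refine ⟨?_, ?_, ?_, ?_, ?_, hcapy, ?_, ?_, ?_⟩
  · have := h.good.step (epst D0)
    rwa [add_assoc] at this
  · simp only [Net.step]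
    rw [hR.1, h.rst]
  · simp only [Net.step]
    rw [hR.2, h.rst, h.rlen]
    ring
  · simp only [Net.step]
    rw [ports_append, ports_append, starts_ports _ _ _ (fun r hr => (ys_mem hr).2),
      ends_ports _ _ _ _ (fun r hr => (ys_mem hr).2), flatMap_ports _ _ _ _ ht hb]
    have := h.prt
    omega
  · intro r hr
    by_cases hlv : D0 < r.lv
    · have h1 := hcapy r hr hlv
      have h2 : 2 ^ (i + 1) ≤ 2 ^ K := Nat.pow_le_pow_right (by norm_num) (by omega)
      have h3 : 2 ^ K ≤ max 2 (2 ^ K) := le_max_right _ _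
      omega
    · rcases hcap r hr with ⟨h1, h2⟩ | h1
      · simp only [Net.step]
        rw [if_neg (by omega), if_pos (by simp [epst]; omega)]
        exact h.capo r h1
      · omega
  · simp only [Net.step]
    rw [List.length_append, List.length_append, starts_length, ends_length, flatMap_length]
    have h1 := h.wlen
    have h2 := h.prt
    have h3 : (N.ys (epst D0)).length ≤ (2 * K + 1) * N0.R.length * 2 ^ K := by
      refine hys.trans ?_
      rw [h.rlen]
      have h4 : 2 ^ i ≤ 2 ^ K := Nat.pow_le_pow_right (by norm_num) (by omega)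
      have h5 : N0.R.length + 2 * i * N0.R.length ≤ (2 * K + 1) * N0.R.length := by
        have h6 : 2 * i * N0.R.length ≤ 2 * K * N0.R.length :=
          Nat.mul_le_mul_right _ (by omega)
        have h7 : (2 * K + 1) * N0.R.length = 2 * K * N0.R.length + N0.R.length := by ring
        omega
      exact Nat.mul_le_mul h5 h4
    have h8 : (i + 1) * (6 * N0.W.length + 2 * ((2 * K + 1) * N0.R.length * 2 ^ K)) =
        i * (6 * N0.W.length + 2 * ((2 * K + 1) * N0.R.length * 2 ^ K)) +
          (6 * N0.W.length + 2 * ((2 * K + 1) * N0.R.length * 2 ^ K)) := by ring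
    rw [h8]
    omega
  · intro l hl
    by_cases hl' : l = D0 + i
    · obtain ⟨e, he, hs⟩ := h.stat
      obtain ⟨f, hf, h1, h2⟩ := (leaf_new (D := D0 + i) (S := -(10 * N.X + 5)) hs).1
      exact ⟨f, mem_step_of_block he hf, h1, by rw [h2, hl']⟩
    · obtain ⟨e, he, h1, h2⟩ := h.leaf l (by omega)
      obtain ⟨f, hf, h3, h4⟩ := leaf_persist (D := D0 + i) (st := epst D0)
        (S := -(10 * N.X + 5)) h1
      exact ⟨f, mem_step_of_block he hf, h3, by rw [h4, h2]⟩
  · obtain ⟨e, he, hs⟩ := h.stat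
    obtain ⟨f, hf, h1⟩ := (leaf_new (D := D0 + i) (S := -(10 * N.X + 5)) hs).2
    exact ⟨f, mem_step_of_block he hf, by rw [h1]; exact hs⟩

/-- state between two epochs -/
structure Sta (K D : ℕ) (N : Net) : Prop where
  good : Good D N
  cap : ∀ r ∈ N.R, N.m r ≤ max 2 (2 ^ K)
  leaf : ∀ l < D, ∃ e ∈ N.W, e.hi = none ∧ e.lev = l
  ne : N.W ≠ []

lemma Sta.epo {K D : ℕ} {N : Net} (h : Sta K D N) : Epo K D 0 N N := by
  have hall : ∀ r ∈ N.R, epst D r = true := by
    intro r hr
    have := h.good.fresh r hr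
    simp [epst, this]
  refine ⟨by simpa using h.good, ?_, by simp, ports_le _ _, h.cap, ?_, by simp,
    by simpa using h.leaf, ?_⟩
  · rw [List.filter_eq_self.mpr hall]
  · intro r hr hlv
    have := h.good.fresh r hr
    omega
  · obtain ⟨e, he⟩ := List.exists_mem_of_ne_nil _ h.ne
    exact ⟨e, he, hall _ (h.good.ok e he).lo_mem⟩

theorem Sta.epoch {K D : ℕ} {N : Net} (h : Sta K D N) :
    ∃ N' : Net, Sta K (D + K) N' ∧ N'.R.length = (2 * K + 1) * N.R.length ∧
      N'.W.length ≤ N.W.length +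
        K * (6 * N.W.length + 2 * ((2 * K + 1) * N.R.length * 2 ^ K)) := by
  have key : ∀ i ≤ K, ∃ N', Epo K D i N N' := by
    intro i
    induction i with
    | zero => intro _; exact ⟨N, h.epo⟩
    | succ i ih =>
      intro hi
      obtain ⟨N', hN'⟩ := ih (by omega)
      exact ⟨_, hN'.succ (by omega)⟩
  obtain ⟨N', hN'⟩ := key K le_rfl
  refine ⟨N', ⟨hN'.good, hN'.capo, hN'.leaf, ?_⟩, ?_, hN'.wlen⟩
  · obtain ⟨e, he, _⟩ := hN'.stat
    exact List.ne_nil_of_mem he
  · rw [hN'.rlen]
    ring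

/-- the start net -/
def net0 : Net := ⟨[Row.root], fun _ => 1, [], 0⟩

lemma good0 : Good 0 net0 where
  xnn := le_rfl
  nodup := by simp [net0]
  fresh := by intro r hr; simp only [net0, List.mem_singleton] at hr; subst hr; simp [Row.lv]
  sorted := by simp [net0]
  bound := by intro e he; simp [net0] at he
  ok := by intro e he; simp [net0] at he
  cert := by intro r _; simp [net0, legs, Cert]
  total := by intro r _; simp [net0, legs, flow]

/-- the net after one level -/
def net1 : Net := net0.step 0 (fun _ => false)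

lemma net1_W : net1.W.length = 2 := by
  simp [net1, Net.step, starts_length, ends_length, net0, Net.ys]

lemma sta1 (K : ℕ) : Sta K 1 net1 where
  good := good0.step _
  cap := by
    intro r hr
    have : net1.m r ≤ 2 := by
      simp only [net1, Net.step, net0]
      split_ifs <;> omega
    exact this.trans (le_max_left _ _)
  leaf := by
    intro l hl
    have : l = 0 := by omega
    subst this
    refine ⟨srcL 0 Row.root (-(10 * 0 + 5) - 1) (up 0 0 (-(10 * 0 + 5) - 1)), ?_, rfl, rfl⟩
    simp [net1, Net.step, net0, Net.ys, starts]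
  ne := by
    intro h
    have := net1_W
    rw [h] at this
    simp at this

theorem exists_sta (K : ℕ) (hK : 1 ≤ K) (g : ℕ) : ∃ N : Net, Sta K (1 + g * K) N ∧
    N.R.length ≤ (3 * K) ^ g ∧ N.W.length ≤ 2 ^ K * (13 * K ^ 2) ^ g := by
  induction g with
  | zero =>
    refine ⟨net1, by simpa using sta1 K, ?_, ?_⟩
    · simp [net1, Net.step, net0, blockR]
    · rw [net1_W, pow_zero, mul_one]
      calc 2 = 2 ^ 1 := rfl
        _ ≤ 2 ^ K := Nat.pow_le_pow_right (by norm_num) hK
  | succ g ih =>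
    obtain ⟨N, h1, h2, h3⟩ := ih
    obtain ⟨N', h4, h5, h6⟩ := h1.epoch
    refine ⟨N', ?_, ?_, ?_⟩
    · have : 1 + g * K + K = 1 + (g + 1) * K := by ring
      rwa [this] at h4
    · rw [h5, pow_succ, mul_comm]
      exact Nat.mul_le_mul h2 (by omega)
    · refine h6.trans ?_
      have h7 : N.W.length + K * (6 * N.W.length + 2 * ((2 * K + 1) * N.R.length * 2 ^ K)) =
          (1 + 6 * K) * N.W.length + 2 * K * (2 * K + 1) * (N.R.length * 2 ^ K) := by ring
      rw [h7]
      have hK2 : K ≤ K ^ 2 := by nlinarith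
      have h8 : (3 * K) ^ g ≤ (13 * K ^ 2) ^ g := Nat.pow_le_pow_left (by nlinarith) g
      have h9 : N.R.length * 2 ^ K ≤ 2 ^ K * (13 * K ^ 2) ^ g := by
        rw [mul_comm]
        exact Nat.mul_le_mul_left _ (h2.trans h8)
      have h10 : (1 + 6 * K) * N.W.length ≤ (7 * K ^ 2) * (2 ^ K * (13 * K ^ 2) ^ g) :=
        Nat.mul_le_mul (by nlinarith) h3
      have h11 : 2 * K * (2 * K + 1) * (N.R.length * 2 ^ K) ≤
          (6 * K ^ 2) * (2 ^ K * (13 * K ^ 2) ^ g) :=
        Nat.mul_le_mul (by nlinarith) h9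
      calc _ ≤ (7 * K ^ 2) * (2 ^ K * (13 * K ^ 2) ^ g) +
            (6 * K ^ 2) * (2 ^ K * (13 * K ^ 2) ^ g) := Nat.add_le_add h10 h11
        _ = 2 ^ K * (13 * K ^ 2) ^ (g + 1) := by ring

/-- combinatorial half: words with superpolynomially many spots -/
theorem exists_words (c C : ℝ) (hc : 0 ≤ c) (d : ℕ) : ∃ (W : Word) (m D : ℕ), W.WF ∧ 1 ≤ m ∧
    Claim W m (Fin D → Bool) ∧ C * (c * (W.R : ℝ) ^ 2 * W.N * m + 1) ^ d < 2 ^ D := by
  set g : ℕ := 2 * d + 1 with hg
  set A : ℝ := |C| * (c + 1) ^ d * 117 ^ (g * d) with hA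
  have hA0 : 0 ≤ A := by positivity
  have hlim := tendsto_pow_const_div_const_pow_of_one_lt (4 * (g * d)) (r := (2 : ℝ)) (by norm_num)
  have hev := (hlim.eventually (gt_mem_nhds (show (0 : ℝ) < 1 / (A + 1) by positivity))).and
    (Filter.eventually_ge_atTop 1)
  obtain ⟨K, hK1, hK⟩ := hev.exists
  obtain ⟨N, h1, h2, h3⟩ := exists_sta K hK g
  have hKr : (1 : ℝ) ≤ K := by exact_mod_cast hK
  have hm : ∀ r ∈ N.R, N.m r ≤ 2 ^ K := by
    intro r hr
    have h4 := h1.cap r hr
    have h5 : 2 ^ 1 ≤ 2 ^ K := Nat.pow_le_pow_right (by norm_num) hK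
    have h6 : max 2 (2 ^ K) = 2 ^ K := max_eq_right (by simpa using h5)
    rwa [h6] at h4
  refine ⟨toWord N, 2 ^ K, 1 + g * K, toWord_WF h1.good ?_, Nat.one_le_two_pow,
    toClaim h1.good h1.leaf _ hm, ?_⟩
  · obtain ⟨e, he, h4, _⟩ := h1.leaf 0 (by omega)
    exact ⟨e, he, h4⟩
  · have hR : (((toWord N).R : ℕ) : ℝ) ≤ (3 * K) ^ g := by
      have : (toWord N).R = N.R.length := rfl
      rw [this]
      exact_mod_cast h2
    have hN : (((toWord N).N : ℕ) : ℝ) ≤ 2 ^ K * (13 * K ^ 2) ^ g := by
      have : (toWord N).N = N.W.length := rfl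
      rw [this]
      exact_mod_cast h3
    have hR0 : (0 : ℝ) ≤ (((toWord N).R : ℕ) : ℝ) := by positivity
    have hN0 : (0 : ℝ) ≤ (((toWord N).N : ℕ) : ℝ) := by positivity
    have hR2 : (((toWord N).R : ℕ) : ℝ) ^ 2 ≤ ((3 * K : ℝ) ^ g) ^ 2 :=
      pow_le_pow_left₀ hR0 hR 2
    have hq : c * (((toWord N).R : ℕ) : ℝ) ^ 2 * ((toWord N).N : ℕ) * ((2 ^ K : ℕ) : ℝ) + 1 ≤
        (c + 1) * (4 ^ K * (117 * (K : ℝ) ^ 4) ^ g) := by
      have e1 : c * (((toWord N).R : ℕ) : ℝ) ^ 2 * ((toWord N).N : ℕ) * ((2 ^ K : ℕ) : ℝ) ≤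
          c * (((3 * K : ℝ) ^ g) ^ 2) * (2 ^ K * (13 * K ^ 2) ^ g) * 2 ^ K := by
        push_cast
        gcongr
      have e2 : c * (((3 * K : ℝ) ^ g) ^ 2) * (2 ^ K * (13 * K ^ 2) ^ g) * 2 ^ K =
          c * (4 ^ K * (117 * (K : ℝ) ^ 4) ^ g) := by
        have e3 : (4 : ℝ) ^ K = 2 ^ K * 2 ^ K := by rw [← mul_pow]; norm_num
        have e4 : (117 * (K : ℝ) ^ 4) ^ g = ((3 * K : ℝ) ^ g) ^ 2 * (13 * K ^ 2) ^ g := by
          rw [← pow_mul, mul_comm g 2, pow_mul, ← mul_pow]
          congr 1
          ring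
        rw [e3, e4]
        ring
      have e5 : (1 : ℝ) ≤ 4 ^ K * (117 * (K : ℝ) ^ 4) ^ g := by
        have a1 : (1 : ℝ) ≤ 4 ^ K := one_le_pow₀ (by norm_num)
        have a3 : (1 : ℝ) ≤ (K : ℝ) ^ 4 := one_le_pow₀ hKr
        have a2 : (1 : ℝ) ≤ (117 * (K : ℝ) ^ 4) ^ g := one_le_pow₀ (by linarith)
        nlinarith
      rw [e2] at e1
      linarith
    have hq0 : 0 ≤ c * (((toWord N).R : ℕ) : ℝ) ^ 2 * ((toWord N).N : ℕ) * ((2 ^ K : ℕ) : ℝ) + 1 := by
      positivity
    have hq2 := pow_le_pow_left₀ hq0 hq d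
    have hAK : A * (K : ℝ) ^ (4 * (g * d)) < 2 ^ K := by
      rw [div_lt_iff₀ (by positivity)] at hK1
      have a1 : (0 : ℝ) ≤ (K : ℝ) ^ (4 * (g * d)) := by positivity
      have a2 : (A + 1) * (K : ℝ) ^ (4 * (g * d)) < 2 ^ K := by
        have a3 : 0 < A + 1 := by linarith
        have := mul_lt_mul_of_pos_left hK1 a3
        have a4 : (A + 1) * (1 / (A + 1) * 2 ^ K) = 2 ^ K := by field_simp
        rwa [a4] at this
      nlinarith
    calc C * (c * (((toWord N).R : ℕ) : ℝ) ^ 2 * ((toWord N).N : ℕ) * ((2 ^ K : ℕ) : ℝ) + 1) ^ d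
        ≤ |C| * (c * (((toWord N).R : ℕ) : ℝ) ^ 2 * ((toWord N).N : ℕ) *
            ((2 ^ K : ℕ) : ℝ) + 1) ^ d := by
          apply mul_le_mul_of_nonneg_right (le_abs_self C)
          positivity
      _ ≤ |C| * ((c + 1) * (4 ^ K * (117 * (K : ℝ) ^ 4) ^ g)) ^ d :=
          mul_le_mul_of_nonneg_left hq2 (abs_nonneg C)
      _ = (A * (K : ℝ) ^ (4 * (g * d))) * 4 ^ (K * d) := by
          rw [hA, mul_pow, mul_pow, ← pow_mul, ← pow_mul, mul_pow, ← pow_mul]
          ring
      _ < 2 ^ K * 4 ^ (K * d) := by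
          apply mul_lt_mul_of_pos_right hAK
          positivity
      _ ≤ 2 ^ (1 + g * K) := by
          have e1 : (4 : ℝ) ^ (K * d) = 2 ^ (2 * (K * d)) := by rw [pow_mul (2 : ℝ) 2]; norm_num
          rw [e1, ← pow_add]
          apply pow_le_pow_right₀ (by norm_num)
          rw [hg]
          nlinarith

end H73RN
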