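import Pool.Agent.H73.RN.Count
import Pool.Agent.H87.RN.Price

/-!
# Glue: combinatorial half + geometry => the frozen statement
-/

set_option autoImplicit false

namespace H73RN

open Pool.Agent.RN (Word Kind GC Claim)

theorem glue (c : ℝ) (hc : 0 ≤ c)
    (hG : ∀ (W : Word) (m D : ℕ), W.WF → 1 ≤ m → Claim W m (Fin D → Bool) →
      ∃ (ι κ : Type) (_ : Fintype ι) (_ : Fintype κ),
        Nonempty (H87RN.Inst ι κ (Fin D → Bool)) ∧ Fintype.card ι ≤ Fintype.card κ ∧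
        (Fintype.card κ : ℝ) ≤ c * (W.R : ℝ) ^ 2 * W.N * m) :
    ¬ (∃ C : ℝ, ∃ d₁ d₂ : ℕ, ∀ m n : ℕ, m ≤ n →
      ∀ (A : Fin m → EuclideanSpace ℝ (Fin 2)) (B : Fin n → EuclideanSpace ℝ (Fin 2)),
        ((({π : Fin m ↪ Fin n | ∃ t : EuclideanSpace ℝ (Fin 2),
            ∀ σ : Fin m ↪ Fin n, σ ≠ π →
              ∑ i, ‖A i - (B (π i) + t)‖ ^ 2 < ∑ i, ‖A i - (B (σ i) + t)‖ ^ 2}
            : Set (Fin m ↪ Fin n)).ncard : ℕ) : ℝ)
          ≤ C * ((m : ℝ) + 1) ^ d₁ * ((n : ℝ) + 1) ^ d₂) := by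
  refine H87RN.not_poly_of_inst fun C d => ?_
  obtain ⟨W, m, D, h1, h2, h3, h4⟩ := exists_words c |C| hc d
  obtain ⟨ι, κ, _, _, hI, hle, hcard⟩ := hG W m D h1 h2 h3
  refine ⟨ι, κ, Fin D → Bool, _, _, inferInstance, hI, hle, ?_⟩
  have h5 : (Fintype.card (Fin D → Bool) : ℝ) = 2 ^ D := by simp
  rw [h5]
  refine lt_of_le_of_lt ?_ h4
  have h6 : (0 : ℝ) ≤ (Fintype.card κ : ℝ) + 1 := by positivity
  calc C * ((Fintype.card κ : ℝ) + 1) ^ d ≤ |C| * ((Fintype.card κ : ℝ) + 1) ^ d :=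
        mul_le_mul_of_nonneg_right (le_abs_self C) (by positivity)
    _ ≤ |C| * (c * (W.R : ℝ) ^ 2 * W.N * m + 1) ^ d := by
        apply mul_le_mul_of_nonneg_left _ (abs_nonneg C)
        exact pow_le_pow_left₀ h6 (by linarith) d

end H73RN
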