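import Pool.Agent.H73.RN.StepGood

/-!
# From signs to real numbers
-/

set_option autoImplicit false

namespace H73RN

open Filter Finset

/-! ### interpolation -/

lemma interp_list : ∀ (L : List (ℤ × ℝ)) (a : ℝ),
    L.Pairwise (fun u v => u.1 < v.1 ∧ u.2 < v.2) → (∀ u ∈ L, a < u.2) →
    ∃ ψ : ℤ → ℝ, StrictMono ψ ∧ (∀ z, a < ψ z) ∧ ∀ u ∈ L, ψ u.1 = u.2 := by
  intro L
  induction L with
  | nil =>
    intro a _ _
    refine ⟨fun z => a + Real.exp z, ?_, ?_, by simp⟩
    · intro z w hzw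
      have : (z : ℝ) < (w : ℝ) := by exact_mod_cast hzw
      have := Real.exp_lt_exp.mpr this
      simp only
      linarith
    · intro z
      have := Real.exp_pos (z : ℝ)
      simp only
      linarith
  | cons u L ih =>
    intro a hp ha
    rw [List.pairwise_cons] at hp
    obtain ⟨ψ, h1, h2, h3⟩ := ih u.2 hp.2 (fun v hv => (hp.1 v hv).2)
    have hau : a < u.2 := ha u (by simp)
    refine ⟨fun z => if z ≤ u.1 then a + (u.2 - a) / (1 + ((u.1 : ℝ) - z)) else ψ z, ?_, ?_, ?_⟩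
    · intro z w hzw
      by_cases hw : w ≤ u.1
      · have hz : z ≤ u.1 := by omega
        simp only [hw, hz, if_true]
        have h4 : (z : ℝ) < w := by exact_mod_cast hzw
        have h5 : (w : ℝ) ≤ u.1 := by exact_mod_cast hw
        have h6 : (u.2 - a) / (1 + ((u.1 : ℝ) - z)) < (u.2 - a) / (1 + ((u.1 : ℝ) - w)) := by
          apply div_lt_div_of_pos_left <;> linarith
        linarith
      · by_cases hz : z ≤ u.1
        · simp only [hw, hz, if_true, if_false]
          have h5 : (z : ℝ) ≤ u.1 := by exact_mod_cast hz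
          have h7 : (u.2 - a) / (1 + ((u.1 : ℝ) - z)) ≤ u.2 - a := by
            apply div_le_self <;> linarith
          have := h2 w
          linarith
        · simp only [hw, hz, if_false]
          exact h1 hzw
    · intro z
      simp only
      split_ifs with hz
      · have h5 : (z : ℝ) ≤ u.1 := by exact_mod_cast hz
        have : 0 < (u.2 - a) / (1 + ((u.1 : ℝ) - z)) := by
          apply div_pos <;> linarith
        linarith
      · exact hau.trans (h2 z)
    · intro v hv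
      rcases List.mem_cons.mp hv with rfl | hv
      · simp
      · have := (hp.1 v hv).1
        simp only
        rw [if_neg (by omega), h3 v hv]

lemma interp {n : ℕ} (xs : Fin n → ℤ) (vs : Fin n → ℝ) (hx : StrictMono xs) (hv : StrictMono vs)
    (a : ℝ) (ha : ∀ i, a < vs i) :
    ∃ ψ : ℤ → ℝ, StrictMono ψ ∧ (∀ z, a < ψ z) ∧ ∀ i, ψ (xs i) = vs i := by
  obtain ⟨ψ, h1, h2, h3⟩ := interp_list (List.ofFn (fun i => (xs i, vs i))) a (by
    rw [List.pairwise_ofFn]
    intro i j hij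
    exact ⟨hx hij, hv hij⟩) (by
    intro u hu
    rw [List.mem_ofFn] at hu
    obtain ⟨i, rfl⟩ := hu
    exact ha i)
  refine ⟨ψ, h1, h2, fun i => ?_⟩
  exact h3 (xs i, vs i) (by rw [List.mem_ofFn]; exact ⟨i, rfl⟩)

/-! ### separation of the levels -/

/-- sign of the digit `l` -/
noncomputable def sgn (s : ℕ → Bool) (l : ℕ) : ℝ := if s l = true then -1 else 1

/-- superposition of the levels -/
noncomputable def F (D : ℕ) (δ : ℕ → ℝ) (T : ℝ) (s : ℕ → Bool) : ℝ :=
  ∑ l ∈ range D, sgn s l * T ^ l * δ l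

lemma abs_sgn (s : ℕ → Bool) (l : ℕ) : |sgn s l| = 1 := by
  unfold sgn; split_ifs <;> simp

lemma F_succ (D : ℕ) (δ : ℕ → ℝ) (T : ℝ) (s : ℕ → Bool) :
    F (D + 1) δ T s = F D δ T s + sgn s D * T ^ D * δ D := by
  unfold F
  rw [sum_range_succ]

lemma abs_F_le (D : ℕ) (δ : ℕ → ℝ) {T : ℝ} (hT : 0 ≤ T) (s : ℕ → Bool) :
    |F D δ T s| ≤ ∑ l ∈ range D, T ^ l * |δ l| := by
  unfold F
  refine (abs_sum_le_sum_abs _ _).trans (le_of_eq ?_)
  refine sum_congr rfl fun l _ => ?_
  rw [abs_mul, abs_mul, abs_sgn, abs_pow, abs_of_nonneg hT, one_mul]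

lemma dom (D : ℕ) (δ : ℕ → ℝ) (h : δ D ≠ 0) :
    ∀ᶠ T : ℝ in atTop, 1 ≤ T ∧ ∑ l ∈ range D, T ^ l * |δ l| < T ^ D * |δ D| := by
  have hpos : 0 < |δ D| := abs_pos.mpr h
  filter_upwards [eventually_ge_atTop (max 1 ((∑ l ∈ range D, |δ l| + 1) / |δ D|))] with T hT
  have h1 : 1 ≤ T := le_trans (le_max_left _ _) hT
  have h2 : (∑ l ∈ range D, |δ l| + 1) ≤ T * |δ D| := by
    have := le_trans (le_max_right _ _) hT
    rwa [div_le_iff₀ hpos] at this
  refine ⟨h1, ?_⟩
  cases D with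
  | zero =>
    simp only [range_zero, sum_empty, pow_zero, one_mul]
    exact hpos
  | succ n =>
    have h3 : ∑ l ∈ range (n + 1), T ^ l * |δ l| ≤ T ^ n * ∑ l ∈ range (n + 1), |δ l| := by
      rw [mul_sum]
      refine sum_le_sum fun l hl => ?_
      have : l ≤ n := by rw [mem_range] at hl; omega
      exact mul_le_mul_of_nonneg_right (pow_le_pow_right₀ h1 this) (abs_nonneg _)
    have h4 : (0 : ℝ) < T ^ n := by positivity
    calc ∑ l ∈ range (n + 1), T ^ l * |δ l| ≤ T ^ n * ∑ l ∈ range (n + 1), |δ l| := h3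
      _ < T ^ n * (T * |δ (n + 1)|) := by
        apply mul_lt_mul_of_pos_left _ h4
        linarith
      _ = T ^ (n + 1) * |δ (n + 1)| := by ring

/-- signs of integers and of their images agree -/
def SignAgree (Δ : ℕ → ℤ) (δ : ℕ → ℝ) : Prop :=
  ∀ l, (0 < Δ l → 0 < δ l) ∧ (Δ l < 0 → δ l < 0) ∧ (Δ l = 0 → δ l = 0)

lemma lex_real (Δ : ℕ → ℤ) (δ : ℕ → ℝ) (h : SignAgree Δ δ) : ∀ D : ℕ,
    ∀ᶠ T : ℝ in atTop, ∀ s s' : ℕ → Bool, LexLe D Δ s s' → F D δ T s' ≤ F D δ T s := by
  intro D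
  induction D with
  | zero =>
    filter_upwards with T s s' _
    simp [F]
  | succ n ih =>
    have hd : ∀ᶠ T : ℝ in atTop, δ n ≠ 0 →
        (1 ≤ T ∧ ∑ l ∈ range n, T ^ l * |δ l| < T ^ n * |δ n|) := by
      by_cases h0 : δ n = 0
      · filter_upwards with T hc
        exact absurd h0 hc
      · filter_upwards [dom n δ h0] with T hT _
        exact hT
    filter_upwards [ih, hd] with T hT hdT s s' hs
    rw [F_succ, F_succ]
    rcases hs with ⟨h1, h2, h3⟩ | ⟨h1, h2, h3⟩ | ⟨h1, h2⟩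
    · have hδ := (h n).1 h1
      obtain ⟨hT1, hT2⟩ := hdT (ne_of_gt hδ)
      have hT0 : (0 : ℝ) ≤ T := by linarith
      have a1 := abs_le.mp (abs_F_le n δ hT0 s)
      have a2 := abs_le.mp (abs_F_le n δ hT0 s')
      rw [abs_of_pos hδ] at hT2
      have e1 : sgn s n = 1 := by simp [sgn, h2]
      have e2 : sgn s' n = -1 := by simp [sgn, h3]
      rw [e1, e2]
      linarith [a1.1, a2.2]
    · have hδ := (h n).2.1 h1
      obtain ⟨hT1, hT2⟩ := hdT (ne_of_lt hδ)
      have hT0 : (0 : ℝ) ≤ T := by linarith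
      have a1 := abs_le.mp (abs_F_le n δ hT0 s)
      have a2 := abs_le.mp (abs_F_le n δ hT0 s')
      rw [abs_of_neg hδ] at hT2
      have e1 : sgn s n = -1 := by simp [sgn, h2]
      have e2 : sgn s' n = 1 := by simp [sgn, h3]
      rw [e1, e2]
      linarith [a1.1, a2.2]
    · have h4 := hT s s' h2
      rcases h1 with h1 | h1
      · have hδ := (h n).2.2 h1
        rw [hδ]
        linarith
      · have : sgn s n = sgn s' n := by simp [sgn, h1]
        rw [this]
        linarith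

lemma F_zero_above (D c : ℕ) (δ : ℕ → ℝ) (hc : c < D) (h : ∀ l, c < l → l < D → δ l = 0) (T : ℝ)
    (s : ℕ → Bool) : F D δ T s = F (c + 1) δ T s := by
  unfold F
  symm
  apply sum_subset
  · intro l hl
    rw [mem_range] at hl ⊢
    omega
  · intro l hl hl'
    rw [mem_range] at hl hl'
    rw [h l (by omega) hl, mul_zero]

lemma leaf_real (D c : ℕ) (δ : ℕ → ℝ) (hc : c < D) (h : ∀ l, c < l → l < D → δ l = 0)
    (h0 : δ c ≠ 0) :
    ∀ᶠ T : ℝ in atTop, ∀ s : ℕ → Bool,
      (0 < sgn s c * δ c → 0 < F D δ T s) ∧ (sgn s c * δ c < 0 → F D δ T s < 0) := by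
  filter_upwards [dom c δ h0] with T hT s
  obtain ⟨hT1, hT2⟩ := hT
  rw [F_zero_above D c δ hc h, F_succ]
  have hT0 : (0 : ℝ) ≤ T := by linarith
  have a1 := abs_le.mp (abs_F_le c δ hT0 s)
  have hTc : (0 : ℝ) < T ^ c := by positivity
  have h1 : |sgn s c * δ c| = |δ c| := by rw [abs_mul, abs_sgn, one_mul]
  constructor
  · intro h2
    rw [abs_of_pos h2] at h1
    rw [← h1] at hT2
    nlinarith [a1.1]
  · intro h2
    rw [abs_of_neg h2] at h1
    rw [← h1] at hT2
    nlinarith [a1.2]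

end H73RN
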