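import Pool.Agent.H73.RN.Cert

set_option autoImplicit false

namespace H73RN

/-- a new leaf which is used iff the digit `D` is `0` -/
def srcL (D : ℕ) (r : Row) (x : ℤ) (p : ℕ → ℤ) : Ltr := ⟨r, none, 1, 0, x, D, false, p⟩

/-- a new leaf which is used iff the digit `D` is `1` -/
def snkL (D : ℕ) (r : Row) (x : ℤ) (p : ℕ → ℤ) : Ltr := ⟨r, none, 0, 0, x, D, true, p⟩

/-- the letters replacing the letter `e` -/
def block (D : ℕ) (st : Row → Bool) (S : ℤ) (e : Ltr) : List Ltr :=
  match e.hi with
  | none =>
    if st e.lo = true then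
      [srcL D (Row.top e.lo D) (10 * e.x - 2) (up D e.p S),
       ⟨e.lo, some (Row.top e.lo D), e.c, 1, 10 * e.x - 1, e.lev, e.eps, up D e.p S⟩,
       ⟨Row.top e.lo D, none, 0, 0, 10 * e.x, e.lev, e.eps, up D e.p (10 * e.x)⟩,
       snkL D (Row.top e.lo D) (10 * e.x + 1) (up D e.p (10 * e.x))]
    else [⟨e.lo, none, e.c, e.c', 10 * e.x, e.lev, e.eps, up D e.p (10 * e.x)⟩]
  | some b =>
    if st e.lo = true then
      if st b = true then
        [srcL D (Row.top e.lo D) (10 * e.x - 4) (up D e.p S),
         srcL D (Row.bot b D) (10 * e.x - 3) (up D e.p S),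
         ⟨e.lo, some (Row.top e.lo D), e.c, 1, 10 * e.x - 2, e.lev, e.eps, up D e.p S⟩,
         ⟨Row.bot b D, some b, 1, e.c', 10 * e.x - 1, e.lev, e.eps, up D e.p S⟩,
         ⟨Row.top e.lo D, some (Row.bot b D), 0, 0, 10 * e.x, e.lev, e.eps,
            up D e.p (10 * e.x)⟩,
         snkL D (Row.top e.lo D) (10 * e.x + 1) (up D e.p (10 * e.x)),
         snkL D (Row.bot b D) (10 * e.x + 2) (up D e.p (10 * e.x))]
      else
        [srcL D (Row.top e.lo D) (10 * e.x - 2) (up D e.p S),
         ⟨e.lo, some (Row.top e.lo D), e.c, 1, 10 * e.x - 1, e.lev, e.eps, up D e.p S⟩,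
         ⟨Row.top e.lo D, some b, 0, e.c', 10 * e.x, e.lev, e.eps, up D e.p (10 * e.x)⟩,
         snkL D (Row.top e.lo D) (10 * e.x + 1) (up D e.p (10 * e.x))]
    else
      if st b = true then
        [srcL D (Row.bot b D) (10 * e.x - 2) (up D e.p S),
         ⟨Row.bot b D, some b, 1, e.c', 10 * e.x - 1, e.lev, e.eps, up D e.p S⟩,
         ⟨e.lo, some (Row.bot b D), e.c, 0, 10 * e.x, e.lev, e.eps, up D e.p (10 * e.x)⟩,
         snkL D (Row.bot b D) (10 * e.x + 1) (up D e.p (10 * e.x))]
      else [⟨e.lo, some b, e.c, e.c', 10 * e.x, e.lev, e.eps, up D e.p (10 * e.x)⟩]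

/-- the rows replacing the row `r` -/
def blockR (D : ℕ) (st : Row → Bool) (r : Row) : List Row :=
  if st r = true then [Row.bot r D, r, Row.top r D] else [r]

/-- start letters -/
def starts (D : ℕ) : List Row → ℤ → List Ltr
  | [], _ => []
  | r :: Y, a => srcL D r a (up D 0 a) :: starts D Y (a + 1)

/-- end letters -/
def ends (D : ℕ) (B : ℤ) : List Row → ℤ → List Ltr
  | [], _ => []
  | r :: Y, a => snkL D r a (up D 0 B) :: ends D B Y (a + 1)

/-- a thick word with its rows (from bottom to top), capacities and a bound for the positions -/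
structure Net where
  /-- rows -/
  R : List Row
  /-- capacities -/
  m : Row → ℕ
  /-- word -/
  W : List Ltr
  /-- bound for the positions -/
  X : ℤ

/-- rows of the end letters -/
def Net.ys (N : Net) (st : Row → Bool) : List Row :=
  N.R.flatMap (fun r => if st r = true then [] else List.replicate (N.m r) r)

/-- one level -/
def Net.step (D : ℕ) (st : Row → Bool) (N : Net) : Net where
  R := N.R.flatMap (blockR D st)
  m := fun r => if D + 1 ≤ r.lv then 2 else if st r = true then N.m r else 2 * N.m r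
  W := starts D (N.ys st) (-(10 * N.X + 5) - (N.ys st).length) ++
    (N.W.flatMap (block D st (-(10 * N.X + 5))) ++ ends D (10 * N.X + 5) (N.ys st) (10 * N.X + 6))
  X := 10 * N.X + 6 + (N.ys st).length

/-- conditions on one letter -/
structure LtrOK (D : ℕ) (R : List Row) (e : Ltr) : Prop where
  lo_mem : e.lo ∈ R
  hi : ∀ b, e.hi = some b → [e.lo, b] <:+: R
  c01 : (0 ≤ e.c ∧ e.c ≤ 1) ∧ (0 ≤ e.c' ∧ e.c' ≤ 1)
  lev_lt : e.lev < D
  above : e.hi = none → ∀ l, e.lev < l → l < D → e.p l = e.x
  birth : e.hi = none → e.eps = true → e.p e.lev < e.x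

/-- the certificate -/
structure Good (D : ℕ) (N : Net) : Prop where
  xnn : 0 ≤ N.X
  nodup : N.R.Nodup
  fresh : ∀ r ∈ N.R, r.lv ≤ D
  sorted : N.W.Pairwise (fun a b => a.x < b.x)
  bound : ∀ e ∈ N.W, -N.X ≤ e.x ∧ e.x ≤ N.X
  ok : ∀ e ∈ N.W, LtrOK D N.R e
  cert : ∀ r ∈ N.R, Cert D (N.m r) (fun _ => 0) 0 ((legs r N.W).map Prod.fst)
  total : ∀ r ∈ N.R, flow (fun _ => 0) ((legs r N.W).map Prod.fst) = fun _ => 0

/-! ### legs of the blocks -/

lemma y_src (D : ℕ) (r : Row) (x : ℤ) (p : ℕ → ℤ) (s : ℕ → Bool) :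
    (srcL D r x p).y s = 1 - dg D s := by
  unfold Ltr.y dg srcL
  by_cases h : s D = true
  · simp [h]
  · simp [h]

lemma y_snk (D : ℕ) (r : Row) (x : ℤ) (p : ℕ → ℤ) (s : ℕ → Bool) :
    (snkL D r x p).y s = dg D s := rfl

lemma leg_src (D : ℕ) (r r' : Row) (x : ℤ) (p : ℕ → ℤ) :
    leg r' (srcL D r x p) = if r = r' then some (⟨dg D, p⟩, x) else none := by
  unfold leg
  simp only [y_src]
  simp [srcL]

lemma leg_snk (D : ℕ) (r r' : Row) (x : ℤ) (p : ℕ → ℤ) :
    leg r' (snkL D r x p) = if r = r' then some (⟨fun s => - dg D s, p⟩, x) else none := by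
  unfold leg
  simp only [y_snk]
  simp [snkL]

lemma leg_mk (r lo : Row) (hi : Option Row) (c c' x : ℤ) (lev : ℕ) (eps : Bool) (p : ℕ → ℤ) :
    leg r ⟨lo, hi, c, c', x, lev, eps, p⟩ =
      if lo = r then some (⟨fun s => c - if s lev = eps then 1 else 0, p⟩, x)
      else if hi = some r then some (⟨fun s => c' - 1 + if s lev = eps then 1 else 0, p⟩, x)
      else none := rfl

/-- young row, one letter -/
lemma legs_block_young (D : ℕ) (st : Row → Bool) (S : ℤ) (e : Ltr) (r : Row)
    (hst : st r = false) (h1 : ∀ a, Row.top a D ≠ r) (h2 : ∀ a, Row.bot a D ≠ r) :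
    legs r (block D st S e) =
      (leg r e).toList.map (fun g => (⟨g.1.inc, up D g.1.p (10 * g.2)⟩, 10 * g.2)) := by
  obtain ⟨lo, hi, c, c', x, lev, eps, p⟩ := e
  cases hi with
  | none =>
    by_cases hlo : lo = r
    · subst hlo
      simp [block, hst, legs, leg_mk, Ltr.y]
    · by_cases hs : st lo = true <;>
        simp [block, hs, legs, List.filterMap_cons, leg_src, leg_snk, leg_mk, hlo, h1]
  | some b =>
    by_cases hlo : lo = r
    · subst hlo
      by_cases hs : st b = true
      · have hb : ¬ b = lo := by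
          intro hb
          rw [hb, hst] at hs
          exact absurd hs (by simp)
        simp [block, hst, hs, legs, List.filterMap_cons, leg_src, leg_snk, leg_mk, h2, Ltr.y, hb]
      · simp [block, hst, hs, legs, List.filterMap_cons, leg_mk, Ltr.y]
    · by_cases hb : b = r
      · subst hb
        by_cases hs : st lo = true <;>
          simp [block, hst, hs, legs, List.filterMap_cons, leg_src, leg_snk, leg_mk, h1, hlo, Ltr.y]
      · by_cases hs : st lo = true <;> by_cases hs' : st b = true <;>
          simp [block, hs', hs, legs, List.filterMap_cons, leg_src, leg_snk, leg_mk, h1, h2, hlo, hb]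

/-- static row, one letter -/
lemma legs_block_static (D : ℕ) (st : Row → Bool) (S : ℤ) (e : Ltr) (r : Row)
    (hst : st r = true) (h1 : ∀ a, Row.top a D ≠ r) (h2 : ∀ a, Row.bot a D ≠ r)
    (hne : e.hi ≠ some e.lo) :
    (legs r (block D st S e)).map Prod.fst =
      (leg r e).toList.map (fun g => ⟨g.1.inc, up D g.1.p S⟩) := by
  obtain ⟨lo, hi, c, c', x, lev, eps, p⟩ := e
  cases hi with
  | none =>
    by_cases hlo : lo = r
    · subst hlo
      simp [block, hst, legs, List.filterMap_cons, leg_mk, leg_src, leg_snk, Ltr.y, h1]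
    · by_cases hs : st lo = true <;>
        simp [block, hs, legs, List.filterMap_cons, leg_src, leg_snk, leg_mk, hlo, h1]
  | some b =>
    have hne' : ¬ b = lo := by
      intro h
      exact hne (by simp [h])
    by_cases hlo : lo = r
    · subst hlo
      by_cases hs : st b = true <;>
        simp [block, hst, hs, legs, List.filterMap_cons, leg_src, leg_snk, leg_mk, h1, h2, hne', Ltr.y]
    · by_cases hb : b = r
      · subst hb
        by_cases hs : st lo = true <;>
          simp [block, hst, hs, legs, List.filterMap_cons, leg_src, leg_snk, leg_mk, h1, h2, hlo, Ltr.y]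
      · by_cases hs : st lo = true <;> by_cases hs' : st b = true <;>
          simp [block, hs', hs, legs, List.filterMap_cons, leg_src, leg_snk, leg_mk, h1, h2, hlo, hb]

/-- new row above a static row, one letter -/
lemma legs_block_top (D : ℕ) (st : Row → Bool) (S : ℤ) (e : Ltr) (r : Row)
    (hst : st r = true) (h1 : ∀ a, e.lo ≠ Row.top a D)
    (h3 : ∀ a, e.hi ≠ some (Row.top a D)) :
    (legs (Row.top r D) (block D st S e)).map Prod.fst =
      if e.lo = r then conv D e.y e.p S (10 * e.x) else [] := by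
  obtain ⟨lo, hi, c, c', x, lev, eps, p⟩ := e
  simp only at h1 h3
  cases hi with
  | none =>
    by_cases hlo : lo = r
    · subst hlo
      simp [block, hst, legs, List.filterMap_cons, leg_mk, leg_src, leg_snk, h1, conv]
      exact ⟨rfl, rfl⟩
    · by_cases hs : st lo = true <;>
        simp [block, hs, legs, List.filterMap_cons, leg_src, leg_snk, leg_mk, hlo, h1]
  | some b =>
    have h3' : ∀ a, b ≠ Row.top a D := fun a h => h3 a (by rw [h])
    by_cases hlo : lo = r
    · subst hlo
      by_cases hs : st b = true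
      · simp [block, hst, hs, legs, List.filterMap_cons, leg_src, leg_snk, leg_mk, h1, h3', conv]
        exact ⟨rfl, rfl⟩
      · simp [block, hst, hs, legs, List.filterMap_cons, leg_src, leg_snk, leg_mk, h1, h3', conv]
        exact ⟨rfl, rfl⟩
    · by_cases hs : st lo = true <;> by_cases hs' : st b = true <;>
          simp [block, hs', hs, legs, List.filterMap_cons, leg_src, leg_snk, leg_mk, h1, h3', hlo]

/-- new row below a static row, one letter -/
lemma legs_block_bot (D : ℕ) (st : Row → Bool) (S : ℤ) (e : Ltr) (r : Row)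
    (hst : st r = true) (h2 : ∀ a, e.lo ≠ Row.bot a D)
    (h4 : ∀ a, e.hi ≠ some (Row.bot a D)) :
    (legs (Row.bot r D) (block D st S e)).map Prod.fst =
      if e.hi = some r then conv D (fun s => 1 - e.y s) e.p S (10 * e.x) else [] := by
  obtain ⟨lo, hi, c, c', x, lev, eps, p⟩ := e
  simp only at h2 h4
  cases hi with
  | none =>
    by_cases hs : st lo = true <;>
      simp [block, hs, legs, List.filterMap_cons, leg_src, leg_snk, leg_mk, h2]
  | some b =>
    have h4' : ∀ a, b ≠ Row.bot a D := fun a h => h4 a (by rw [h])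
    have hfun : (fun s : ℕ → Bool => (-1 : ℤ) + if s lev = eps then 1 else 0) =
        (fun s => (if s lev = eps then 1 else 0) - 1) := by
      funext s; ring
    by_cases hb : b = r
    · subst hb
      by_cases hs : st lo = true <;>
        simp [block, hst, hs, legs, List.filterMap_cons, leg_src, leg_snk, leg_mk, h2, h4', conv, Ltr.y, hfun]
    · by_cases hs : st lo = true <;> by_cases hs' : st b = true <;>
          simp [block, hs', hs, legs, List.filterMap_cons, leg_src, leg_snk, leg_mk, h2, h4', hb]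

end H73RN
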