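import Pool.Agent.H73.RN.Step

set_option autoImplicit false

namespace H73RN

/-! ### rows -/

lemma blockR_mem (D : ℕ) (st : Row → Bool) (r : Row) : r ∈ blockR D st r := by
  unfold blockR
  split_ifs <;> simp

lemma infix_flatMap {D : ℕ} {st : Row → Bool} {R : List Row} {r : Row} (hr : r ∈ R)
    {L : List Row} (hL : L <:+: blockR D st r) : L <:+: R.flatMap (blockR D st) := by
  obtain ⟨A, B, rfl⟩ := List.append_of_mem hr
  rw [List.flatMap_append, List.flatMap_cons]
  refine hL.trans ⟨A.flatMap (blockR D st), B.flatMap (blockR D st), ?_⟩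
  simp

lemma infix_flatMap2 {D : ℕ} {st : Row → Bool} {R : List Row} {r b : Row}
    (hr : [r, b] <:+: R) {L : List Row} (hL : L <:+: blockR D st r ++ blockR D st b) :
    L <:+: R.flatMap (blockR D st) := by
  obtain ⟨A, B, rfl⟩ := hr
  refine hL.trans ⟨A.flatMap (blockR D st), B.flatMap (blockR D st), ?_⟩
  simp

/-! ### letters -/

section
variable {D : ℕ} {R : List Row}

lemma ok_src {r : Row} (hr : r ∈ R) (x : ℤ) (p : ℕ → ℤ) : LtrOK (D + 1) R (srcL D r x p) where
  lo_mem := hr
  hi := by intro b hb; simp [srcL] at hb
  c01 := by simp [srcL]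
  lev_lt := by simp [srcL]
  above := by
    intro _ l h1 h2
    simp only [srcL] at h1
    omega
  birth := by intro _ h; simp [srcL] at h

lemma ok_snk {r : Row} (hr : r ∈ R) (x : ℤ) (p : ℕ → ℤ) (hx : p D < x) :
    LtrOK (D + 1) R (snkL D r x p) where
  lo_mem := hr
  hi := by intro b hb; simp [snkL] at hb
  c01 := by simp [snkL]
  lev_lt := by simp [snkL]
  above := by
    intro _ l h1 h2
    simp only [snkL] at h1
    omega
  birth := by intro _ _; exact hx

lemma ok_bridge {lo b : Row} (h : [lo, b] <:+: R) {c c' : ℤ} (hc : 0 ≤ c ∧ c ≤ 1)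
    (hc' : 0 ≤ c' ∧ c' ≤ 1) (x : ℤ) {lev : ℕ} (hl : lev < D) (eps : Bool) (p : ℕ → ℤ) :
    LtrOK (D + 1) R ⟨lo, some b, c, c', x, lev, eps, p⟩ where
  lo_mem := h.subset (by simp)
  hi := by
    intro b' hb
    simp only [Option.some.injEq] at hb
    subst hb
    exact h
  c01 := ⟨hc, hc'⟩
  lev_lt := by simp only; omega
  above := by intro h; simp at h
  birth := by intro h; simp at h

lemma ok_leaf {R' : List Row} {lo : Row} (hlo : lo ∈ R) {e : Ltr} (he : LtrOK D R' e)
    (hn : e.hi = none) {c c' : ℤ} (hc : 0 ≤ c ∧ c ≤ 1) (hc' : 0 ≤ c' ∧ c' ≤ 1) :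
    LtrOK (D + 1) R ⟨lo, none, c, c', 10 * e.x, e.lev, e.eps, up D e.p (10 * e.x)⟩ where
  lo_mem := hlo
  hi := by intro b' hb; simp at hb
  c01 := ⟨hc, hc'⟩
  lev_lt := by have := he.lev_lt; simp only; omega
  above := by
    intro _ l h1 h2
    simp only at h1 ⊢
    by_cases hl : l = D
    · subst hl
      simp [up]
    · simp only [up, Function.update_of_ne hl]
      rw [he.above hn l h1 (by omega)]
  birth := by
    intro _ h
    simp only at h ⊢
    have hl := he.lev_lt
    have hl' : e.lev ≠ D := by omega
    simp only [up, Function.update_of_ne hl']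
    have := he.birth hn h
    omega

end

lemma block_ok {D : ℕ} {st : Row → Bool} {S : ℤ} {R : List Row} {e : Ltr} (he : LtrOK D R e) :
    ∀ f ∈ block D st S e, LtrOK (D + 1) (R.flatMap (blockR D st)) f := by
  have h0 := he.lo_mem
  have hc := he.c01
  have hl := he.lev_lt
  have z01 : (0 : ℤ) ≤ 0 ∧ (0 : ℤ) ≤ 1 := by norm_num
  have o01 : (0 : ℤ) ≤ 1 ∧ (1 : ℤ) ≤ 1 := by norm_num
  have hself : e.lo ∈ R.flatMap (blockR D st) :=
    List.mem_flatMap.mpr ⟨e.lo, h0, blockR_mem D st e.lo⟩
  have htop : st e.lo = true → [e.lo, Row.top e.lo D] <:+: R.flatMap (blockR D st) := by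
    intro h
    refine infix_flatMap h0 ?_
    rw [blockR, if_pos h]
    exact ⟨[Row.bot e.lo D], [], by simp⟩
  have htopm : st e.lo = true → Row.top e.lo D ∈ R.flatMap (blockR D st) :=
    fun h => (htop h).subset (by simp)
  cases hhi : e.hi with
  | none =>
    by_cases hs : st e.lo = true
    · intro f hf
      simp only [block, hhi, hs, if_true, List.mem_cons, List.not_mem_nil, or_false] at hf
      rcases hf with rfl | rfl | rfl | rfl
      · exact ok_src (htopm hs) _ _
      · exact ok_bridge (htop hs) hc.1 o01 _ hl _ _
      · exact ok_leaf (htopm hs) he hhi z01 z01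
      · exact ok_snk (htopm hs) _ _ (by simp [up])
    · intro f hf
      simp only [block, hhi, hs, if_false, List.mem_cons, List.not_mem_nil, or_false,
        Bool.false_eq_true] at hf
      rw [hf]
      exact ok_leaf hself he hhi hc.1 hc.2
  | some b =>
    have hinf := he.hi b hhi
    have hb : b ∈ R := hinf.subset (by simp)
    have hbot : st b = true → [Row.bot b D, b] <:+: R.flatMap (blockR D st) := by
      intro h
      refine infix_flatMap hb ?_
      rw [blockR, if_pos h]
      exact ⟨[], [Row.top b D], by simp⟩
    have hbotm : st b = true → Row.bot b D ∈ R.flatMap (blockR D st) :=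
      fun h => (hbot h).subset (by simp)
    by_cases hs : st e.lo = true
    · by_cases hs' : st b = true
      · have hmid : [Row.top e.lo D, Row.bot b D] <:+: R.flatMap (blockR D st) := by
          refine infix_flatMap2 hinf ⟨[Row.bot e.lo D, e.lo], [b, Row.top b D], ?_⟩
          simp [blockR, hs, hs']
        intro f hf
        simp only [block, hhi, hs, hs', if_true, List.mem_cons, List.not_mem_nil, or_false] at hf
        rcases hf with rfl | rfl | rfl | rfl | rfl | rfl | rfl
        · exact ok_src (htopm hs) _ _
        · exact ok_src (hbotm hs') _ _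
        · exact ok_bridge (htop hs) hc.1 o01 _ hl _ _
        · exact ok_bridge (hbot hs') o01 hc.2 _ hl _ _
        · exact ok_bridge hmid z01 z01 _ hl _ _
        · exact ok_snk (htopm hs) _ _ (by simp [up])
        · exact ok_snk (hbotm hs') _ _ (by simp [up])
      · have hmid : [Row.top e.lo D, b] <:+: R.flatMap (blockR D st) := by
          refine infix_flatMap2 hinf ⟨[Row.bot e.lo D, e.lo], [], ?_⟩
          simp [blockR, hs, hs']
        intro f hf
        simp only [block, hhi, hs, hs', if_true, if_false, List.mem_cons, List.not_mem_nil,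
          or_false, Bool.false_eq_true] at hf
        rcases hf with rfl | rfl | rfl | rfl
        · exact ok_src (htopm hs) _ _
        · exact ok_bridge (htop hs) hc.1 o01 _ hl _ _
        · exact ok_bridge hmid z01 hc.2 _ hl _ _
        · exact ok_snk (htopm hs) _ _ (by simp [up])
    · by_cases hs' : st b = true
      · have hmid : [e.lo, Row.bot b D] <:+: R.flatMap (blockR D st) := by
          refine infix_flatMap2 hinf ⟨[], [b, Row.top b D], ?_⟩
          simp [blockR, hs, hs']
        intro f hf
        simp only [block, hhi, hs, hs', if_true, if_false, List.mem_cons, List.not_mem_nil,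
          or_false, Bool.false_eq_true] at hf
        rcases hf with rfl | rfl | rfl | rfl
        · exact ok_src (hbotm hs') _ _
        · exact ok_bridge (hbot hs') o01 hc.2 _ hl _ _
        · exact ok_bridge hmid hc.1 z01 _ hl _ _
        · exact ok_snk (hbotm hs') _ _ (by simp [up])
      · have hmid : [e.lo, b] <:+: R.flatMap (blockR D st) := by
          refine infix_flatMap2 hinf ⟨[], [], ?_⟩
          simp [blockR, hs, hs']
        intro f hf
        simp only [block, hhi, hs, hs', if_false, List.mem_cons, List.not_mem_nil,
          or_false, Bool.false_eq_true] at hf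
        rw [hf]
        exact ok_bridge hmid hc.1 hc.2 _ hl _ _

lemma block_x {D : ℕ} {st : Row → Bool} {S : ℤ} {e : Ltr} :
    ∀ f ∈ block D st S e, 10 * e.x - 4 ≤ f.x ∧ f.x ≤ 10 * e.x + 2 := by
  intro f hf
  cases hhi : e.hi with
  | none =>
    by_cases hs : st e.lo = true
    · simp only [block, hhi, hs, if_true, List.mem_cons, List.not_mem_nil, or_false] at hf
      rcases hf with rfl | rfl | rfl | rfl <;> simp only [srcL, snkL] <;> omega
    · simp only [block, hhi, hs, if_false, List.mem_cons, List.not_mem_nil, or_false,
        Bool.false_eq_true] at hf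
      subst hf
      simp only
      omega
  | some b =>
    by_cases hs : st e.lo = true
    · by_cases hs' : st b = true
      · simp only [block, hhi, hs, hs', if_true, List.mem_cons, List.not_mem_nil, or_false] at hf
        rcases hf with rfl | rfl | rfl | rfl | rfl | rfl | rfl <;> simp only [srcL, snkL] <;> omega
      · simp only [block, hhi, hs, hs', if_true, if_false, List.mem_cons, List.not_mem_nil,
          or_false, Bool.false_eq_true] at hf
        rcases hf with rfl | rfl | rfl | rfl <;> simp only [srcL, snkL] <;> omega
    · by_cases hs' : st b = true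
      · simp only [block, hhi, hs, hs', if_true, if_false, List.mem_cons, List.not_mem_nil,
          or_false, Bool.false_eq_true] at hf
        rcases hf with rfl | rfl | rfl | rfl <;> simp only [srcL, snkL] <;> omega
      · simp only [block, hhi, hs, hs', if_false, List.mem_cons, List.not_mem_nil,
          or_false, Bool.false_eq_true] at hf
        subst hf
        simp only
        omega

lemma block_sorted {D : ℕ} {st : Row → Bool} {S : ℤ} {e : Ltr} :
    (block D st S e).Pairwise (fun a b => a.x < b.x) := by
  cases hhi : e.hi with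
  | none =>
    by_cases hs : st e.lo = true
    · simp only [block, hhi, hs, if_true]
      simp [srcL, snkL]
      try omega
    · simp [block, hhi, hs]
  | some b =>
    by_cases hs : st e.lo = true
    · by_cases hs' : st b = true
      · simp only [block, hhi, hs, hs', if_true]
        simp [srcL, snkL]
        try omega
      · simp only [block, hhi, hs, hs', if_true, if_false]
        simp [srcL, snkL]
        try omega
    · by_cases hs' : st b = true
      · simp only [block, hhi, hs, hs', if_true, if_false]
        simp [srcL, snkL]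
        try omega
      · simp [block, hhi, hs, hs']


/-! ### start and end letters -/

lemma starts_spec (D : ℕ) (Y : List Row) : ∀ a : ℤ, ∀ f ∈ starts D Y a,
    a ≤ f.x ∧ f.x < a + Y.length ∧ ∃ r ∈ Y, ∃ x p, f = srcL D r x p := by
  induction Y with
  | nil => intro a f hf; simp [starts] at hf
  | cons r Y ih =>
    intro a f hf
    simp only [starts, List.mem_cons] at hf
    simp only [List.length_cons]
    push_cast
    rcases hf with rfl | hf
    · refine ⟨by simp [srcL], by simp [srcL], r, by simp, _, _, rfl⟩
    · obtain ⟨h1, h2, r', hr', x, p, h3⟩ := ih (a + 1) f hf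
      exact ⟨by omega, by omega, r', by simp [hr'], x, p, h3⟩

lemma starts_sorted (D : ℕ) (Y : List Row) : ∀ a : ℤ,
    (starts D Y a).Pairwise (fun a b => a.x < b.x) := by
  induction Y with
  | nil => intro a; simp [starts]
  | cons r Y ih =>
    intro a
    simp only [starts, List.pairwise_cons]
    refine ⟨fun f hf => ?_, ih _⟩
    have := (starts_spec D Y (a + 1) f hf).1
    simp only [srcL]
    omega

lemma ends_spec (D : ℕ) (B : ℤ) (Y : List Row) : ∀ a : ℤ, ∀ f ∈ ends D B Y a,
    a ≤ f.x ∧ f.x < a + Y.length ∧ ∃ r ∈ Y, ∃ x, a ≤ x ∧ f = snkL D r x (up D 0 B) := by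
  induction Y with
  | nil => intro a f hf; simp [ends] at hf
  | cons r Y ih =>
    intro a f hf
    simp only [ends, List.mem_cons] at hf
    simp only [List.length_cons]
    push_cast
    rcases hf with rfl | hf
    · refine ⟨by simp [snkL], by simp [snkL], r, by simp, _, le_rfl, rfl⟩
    · obtain ⟨h1, h2, r', hr', x, hx, h3⟩ := ih (a + 1) f hf
      exact ⟨by omega, by omega, r', by simp [hr'], x, by omega, h3⟩

lemma ends_sorted (D : ℕ) (B : ℤ) (Y : List Row) : ∀ a : ℤ,
    (ends D B Y a).Pairwise (fun a b => a.x < b.x) := by
  induction Y with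
  | nil => intro a; simp [ends]
  | cons r Y ih =>
    intro a
    simp only [ends, List.pairwise_cons]
    refine ⟨fun f hf => ?_, ih _⟩
    have := (ends_spec D B Y (a + 1) f hf).1
    simp only [snkL]
    omega

/-- legs of the start letters on the row `r` -/
lemma legs_starts (D : ℕ) (r : Row) (Y : List Row) : ∀ a : ℤ, ∃ A : List ℤ,
    (legs r (starts D Y a)).map Prod.fst = A.map (fun a => ⟨dg D, up D 0 a⟩) ∧
      A.length = Y.count r ∧ A.Pairwise (· < ·) ∧ ∀ b ∈ A, a ≤ b ∧ b < a + Y.length := by
  induction Y with
  | nil => intro a; exact ⟨[], by simp [starts, legs], by simp, by simp, by simp⟩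
  | cons r' Y ih =>
    intro a
    obtain ⟨A, h1, h2, h3, h4⟩ := ih (a + 1)
    by_cases hr : r' = r
    · refine ⟨a :: A, ?_, ?_, ?_, ?_⟩
      · simp only [legs] at h1 ⊢
        simp [starts, List.filterMap_cons, leg_src, hr, h1]
      · simp [hr, h2]
      · rw [List.pairwise_cons]
        exact ⟨fun b hb => by have := (h4 b hb).1; omega, h3⟩
      · intro b hb
        simp only [List.length_cons]
        push_cast
        rcases List.mem_cons.mp hb with rfl | hb
        · constructor
          · exact le_rfl
          · have : (0 : ℤ) ≤ Y.length := by positivity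
            omega
        · have := h4 b hb
          omega
    · refine ⟨A, ?_, ?_, h3, ?_⟩
      · simp only [legs] at h1 ⊢
        simp [starts, List.filterMap_cons, leg_src, hr, h1]
      · rw [List.count_cons_of_ne hr, h2]
      · intro b hb
        simp only [List.length_cons]
        push_cast
        have := h4 b hb
        omega

/-- legs of the end letters on the row `r` -/
lemma legs_ends (D : ℕ) (B : ℤ) (r : Row) (Y : List Row) : ∀ a : ℤ,
    (legs r (ends D B Y a)).map Prod.fst =
      List.replicate (Y.count r) ⟨fun s => - dg D s, up D 0 B⟩ := by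
  induction Y with
  | nil => intro a; simp [ends, legs]
  | cons r' Y ih =>
    intro a
    have h1 := ih (a + 1)
    simp only [legs] at h1 ⊢
    by_cases hr : r' = r
    · subst hr
      simp [ends, List.filterMap_cons, leg_snk, h1, List.replicate_succ]
    · rw [List.count_cons_of_ne hr]
      simp [ends, List.filterMap_cons, leg_snk, hr, h1]

/-! ### counting the end letters -/

lemma count_ys_aux (st : Row → Bool) (m : Row → ℕ) (r : Row) (R : List Row) (hR : R.Nodup) :
    (R.flatMap (fun r => if st r = true then [] else List.replicate (m r) r)).count r =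
      if r ∈ R ∧ st r = false then m r else 0 := by
  induction R with
  | nil => simp
  | cons a R ih =>
    rw [List.nodup_cons] at hR
    rw [List.flatMap_cons, List.count_append, ih hR.2]
    by_cases har : a = r
    · subst har
      by_cases hs : st a = true
      · simp [hs]
      · simp [hs, hR.1, List.count_replicate]
    · have har' : ¬ r = a := fun h => har h.symm
      by_cases hs : st a = true
      · simp [hs, har']
      · simp [hs, har', List.count_replicate, har]

lemma ys_count {D : ℕ} {N : Net} (h : Good D N) (st : Row → Bool) (r : Row) :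
    (N.ys st).count r = if r ∈ N.R ∧ st r = false then N.m r else 0 :=
  count_ys_aux st N.m r N.R h.nodup

lemma ys_mem {N : Net} {st : Row → Bool} {r : Row} (h : r ∈ N.ys st) :
    r ∈ N.R ∧ st r = false := by
  simp only [Net.ys, List.mem_flatMap] at h
  obtain ⟨r', hr', h2⟩ := h
  by_cases hs : st r' = true
  · simp [hs] at h2
  · simp only [hs, Bool.false_eq_true, if_false, List.mem_replicate] at h2
    obtain ⟨_, rfl⟩ := h2
    exact ⟨hr', by simpa using hs⟩


/-! ### the step -/

lemma legs_append (r : Row) (A B : List Ltr) : legs r (A ++ B) = legs r A ++ legs r B :=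
  List.filterMap_append

lemma legs_flatMap (r : Row) (W : List Ltr) (f : Ltr → List Ltr) :
    legs r (W.flatMap f) = W.flatMap (fun e => legs r (f e)) := by
  induction W with
  | nil => rfl
  | cons e W ih => rw [List.flatMap_cons, legs_append, List.flatMap_cons, ih]

lemma legs_eq_flatMap (r : Row) (W : List Ltr) : legs r W = W.flatMap (fun e => (leg r e).toList) := by
  induction W with
  | nil => rfl
  | cons e W ih =>
    rw [List.flatMap_cons, ← ih]
    unfold legs
    rw [List.filterMap_cons]
    cases leg r e <;> simp

lemma flatMap_ite {α β : Type} (P : α → Prop) [DecidablePred P] (f : α → List β) (W : List α) :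
    W.flatMap (fun e => if P e then f e else []) = (W.filter (fun e => P e)).flatMap f := by
  induction W with
  | nil => rfl
  | cons e W ih =>
    rw [List.flatMap_cons, ih]
    by_cases h : P e <;> simp [h]

lemma flatMap_congr' {α β : Type} {f g : α → List β} {W : List α} (h : ∀ e ∈ W, f e = g e) :
    W.flatMap f = W.flatMap g := by
  induction W with
  | nil => rfl
  | cons e W ih =>
    rw [List.flatMap_cons, List.flatMap_cons, h e (by simp), ih (fun e he => h e (by simp [he]))]

lemma lastp_start {D : ℕ} (A : List ℤ) : ∀ w : ℤ, ∃ w',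
    lastp (up D 0 w) (A.map (fun a => (⟨dg D, up D 0 a⟩ : Leg))) = up D 0 w' ∧ (w' = w ∨ w' ∈ A) := by
  induction A with
  | nil => intro w; exact ⟨w, rfl, Or.inl rfl⟩
  | cons a A ih =>
    intro w
    obtain ⟨w', h1, h2⟩ := ih a
    refine ⟨w', h1, Or.inr ?_⟩
    rcases h2 with h2 | h2
    · simp [h2]
    · simp [h2]

lemma lastp_young {D : ℕ} (L : List (Leg × ℤ)) (B : ℤ) : ∀ (q : ℕ → ℤ) (w : ℤ), w < B →
    (∀ g ∈ L, 10 * g.2 < B) → ∃ q' w',
      lastp (up D q w) (L.map (fun g => (⟨g.1.inc, up D g.1.p (10 * g.2)⟩ : Leg))) = up D q' w' ∧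
        w' < B := by
  induction L with
  | nil => intro q w hw _; exact ⟨q, w, rfl, hw⟩
  | cons g L ih =>
    intro q w _ hL
    exact ih g.1.p (10 * g.2) (hL g (by simp)) (fun g' hg' => hL g' (by simp [hg']))

lemma flow_young {D : ℕ} (L : List (Leg × ℤ)) : ∀ k,
    flow k (L.map (fun g => (⟨g.1.inc, up D g.1.p (10 * g.2)⟩ : Leg))) =
      flow k (L.map Prod.fst) := by
  induction L with
  | nil => intro k; rfl
  | cons g L ih => intro k; simp only [List.map_cons, flow, ih]

lemma flow_static {D : ℕ} (S : ℤ) (L : List Leg) : ∀ k,
    flow k (L.map (fun g => (⟨g.inc, up D g.p S⟩ : Leg))) = flow k L := by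
  induction L with
  | nil => intro k; rfl
  | cons g L ih => intro k; simp only [List.map_cons, flow, ih]

lemma legs_sorted {r : Row} {W : List Ltr} (h : W.Pairwise (fun a b => a.x < b.x)) :
    (legs r W).Pairwise (fun a b => a.2 < b.2) := by
  unfold legs
  rw [List.pairwise_filterMap]
  refine h.imp ?_
  intro a b hab g hg g' hg'
  have h1 : ∀ (e : Ltr) (g : Leg × ℤ), leg r e = some g → g.2 = e.x := by
    intro e g hg
    unfold leg at hg
    split_ifs at hg
    · simp only [Option.some.injEq] at hg; rw [← hg]
    · simp only [Option.some.injEq] at hg; rw [← hg]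
  rw [h1 a g hg, h1 b g' hg']
  exact hab

lemma legs_mem {r : Row} {W : List Ltr} {g : Leg × ℤ} (h : g ∈ legs r W) :
    ∃ e ∈ W, g.2 = e.x := by
  unfold legs at h
  rw [List.mem_filterMap] at h
  obtain ⟨e, he, hg⟩ := h
  refine ⟨e, he, ?_⟩
  unfold leg at hg
  split_ifs at hg
  · simp only [Option.some.injEq] at hg; rw [← hg]
  · simp only [Option.some.injEq] at hg; rw [← hg]

theorem Good.step {D : ℕ} {N : Net} (h : Good D N) (st : Row → Bool) :
    Good (D + 1) (N.step D st) := by
  have hfr1 : ∀ r ∈ N.R, ∀ a, Row.top a D ≠ r := by
    rintro r hr a rfl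
    have := h.fresh _ hr
    simp [Row.lv] at this
  have hfr2 : ∀ r ∈ N.R, ∀ a, Row.bot a D ≠ r := by
    rintro r hr a rfl
    have := h.fresh _ hr
    simp [Row.lv] at this
  have hX0 := h.xnn
  have hlen : (0 : ℤ) ≤ ((N.ys st).length : ℤ) := by positivity
  have hysnew : ∀ r, D + 1 ≤ r.lv → (N.ys st).count r = 0 := by
    intro r hr
    rw [ys_count h, if_neg]
    rintro ⟨h1, _⟩
    have := h.fresh r h1
    omega
  have hlo : ∀ e ∈ N.W, ∀ a, e.lo ≠ Row.top a D := fun e he a hc =>
    hfr1 _ (h.ok e he).lo_mem a hc.symm
  have hlo' : ∀ e ∈ N.W, ∀ a, e.lo ≠ Row.bot a D := fun e he a hc =>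
    hfr2 _ (h.ok e he).lo_mem a hc.symm
  have hhi : ∀ e ∈ N.W, ∀ a, e.hi ≠ some (Row.top a D) := fun e he a hc =>
    hfr1 _ (((h.ok e he).hi _ hc).subset (by simp)) a rfl
  have hhi' : ∀ e ∈ N.W, ∀ a, e.hi ≠ some (Row.bot a D) := fun e he a hc =>
    hfr2 _ (((h.ok e he).hi _ hc).subset (by simp)) a rfl
  -- the legs of the rows
  have hall : ∀ r ∈ (N.step D st).R,
      Cert (D + 1) ((N.step D st).m r) (fun _ => 0) 0 ((legs r (N.step D st).W).map Prod.fst) ∧
      flow (fun _ => 0) ((legs r (N.step D st).W).map Prod.fst) = fun _ => 0 := by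
    intro r' hr'
    simp only [Net.step, List.mem_flatMap] at hr'
    obtain ⟨r, hr, hr'⟩ := hr'
    have hW : (legs r' (N.step D st).W).map Prod.fst =
        (legs r' (starts D (N.ys st) (-(10 * N.X + 5) - (N.ys st).length))).map Prod.fst ++
        ((N.W.flatMap (fun e => (legs r' (block D st (-(10 * N.X + 5)) e)).map Prod.fst)) ++
        List.replicate ((N.ys st).count r') ⟨fun s => - dg D s, up D 0 (10 * N.X + 5)⟩) := by
      simp only [Net.step, legs_append, List.map_append, legs_ends, legs_flatMap, List.map_flatMap]
    rw [hW]
    obtain ⟨A, hA1, hA2, hA3, hA4⟩ := legs_starts D r' (N.ys st)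
      (-(10 * N.X + 5) - (N.ys st).length)
    rw [hA1]
    by_cases hs : st r = true
    · -- static rows: no start or end letters
      have hcount : (N.ys st).count r' = 0 := by
        simp only [blockR, hs, if_true, List.mem_cons, List.not_mem_nil, or_false] at hr'
        rcases hr' with rfl | rfl | rfl
        · exact hysnew _ (by simp [Row.lv])
        · rw [ys_count h, if_neg (by simp [hs])]
        · exact hysnew _ (by simp [Row.lv])
      have hA0 : A = [] := List.eq_nil_of_length_eq_zero (by rw [hA2, hcount])
      rw [hcount, hA0, List.map_nil, List.nil_append, List.replicate_zero, List.append_nil]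
      simp only [blockR, hs, if_true, List.mem_cons, List.not_mem_nil, or_false] at hr'
      rcases hr' with rfl | rfl | rfl
      · -- bottom row
        have e1 : N.W.flatMap (fun e => (legs (Row.bot r D) (block D st (-(10 * N.X + 5)) e)).map
            Prod.fst) = (N.W.filter (fun e => e.hi = some r)).flatMap
              (fun e => conv D (fun s => 1 - e.y s) e.p (-(10 * N.X + 5)) (10 * e.x)) := by
          rw [← flatMap_ite]
          exact flatMap_congr' fun e he =>
            legs_block_bot D st _ e r hs (hlo' e he) (hhi' e he)
        rw [e1]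
        have e2 : (N.step D st).m (Row.bot r D) = 2 := by simp [Net.step, Row.lv]
        rw [e2]
        refine ⟨?_, flow_convs _ _ _ _ _ _⟩
        refine Cert_convs _ _ _ _ _ ?_ ?_ 0
        · intro e _ s
          have := y_nonneg e s
          have := y_le e s
          omega
        · intro e he
          have := (h.bound e (List.mem_of_mem_filter he)).1
          omega
      · -- the static row itself
        have e1 : N.W.flatMap (fun e => (legs r' (block D st (-(10 * N.X + 5)) e)).map
            Prod.fst) = ((legs r' N.W).map Prod.fst).map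
              (fun g => (⟨g.inc, up D g.p (-(10 * N.X + 5))⟩ : Leg)) := by
          rw [legs_eq_flatMap, List.map_map, List.map_flatMap]
          refine flatMap_congr' fun e he => ?_
          rw [legs_block_static D st _ e r' hs (hfr1 r' hr) (hfr2 r' hr)]
          · rfl
          · intro hc
            obtain ⟨P, Q, hPQ⟩ := (h.ok e he).hi _ hc
            have := h.nodup
            rw [← hPQ] at this
            simp [List.nodup_append] at this
        rw [e1]
        have e2 : (N.step D st).m r' = N.m r' := by
          have := h.fresh r' hr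
          simp only [Net.step]
          rw [if_neg (by omega), if_pos hs]
        rw [e2, flow_static]
        exact ⟨Cert_zero (fun _ _ => rfl) (Cert_static _ _ _ _ (h.cert r' hr)), h.total r' hr⟩
      · -- top row
        have e1 : N.W.flatMap (fun e => (legs (Row.top r D) (block D st (-(10 * N.X + 5)) e)).map
            Prod.fst) = (N.W.filter (fun e => e.lo = r)).flatMap
              (fun e => conv D e.y e.p (-(10 * N.X + 5)) (10 * e.x)) := by
          rw [← flatMap_ite]
          exact flatMap_congr' fun e he =>
            legs_block_top D st _ e r hs (hlo e he) (hhi e he)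
        rw [e1]
        have e2 : (N.step D st).m (Row.top r D) = 2 := by simp [Net.step, Row.lv]
        rw [e2]
        refine ⟨?_, flow_convs _ _ _ _ _ _⟩
        refine Cert_convs _ _ _ _ _ ?_ ?_ 0
        · intro e _ s
          exact ⟨y_nonneg e s, y_le e s⟩
        · intro e he
          have := (h.bound e (List.mem_of_mem_filter he)).1
          omega
    · -- young row
      have hs' : st r = false := by simpa using hs
      simp only [blockR, hs, if_false, List.mem_singleton, Bool.false_eq_true] at hr'
      subst hr'
      have e1 : N.W.flatMap (fun e => (legs r' (block D st (-(10 * N.X + 5)) e)).map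
          Prod.fst) = (legs r' N.W).map
            (fun g => (⟨g.1.inc, up D g.1.p (10 * g.2)⟩ : Leg)) := by
        rw [legs_eq_flatMap, List.map_flatMap]
        refine flatMap_congr' fun e he => ?_
        rw [legs_block_young D st _ e r' hs' (hfr1 r' hr) (hfr2 r' hr), List.map_map]
        rfl
      have hcount : (N.ys st).count r' = N.m r' := by
        rw [ys_count h, if_pos ⟨hr, hs'⟩]
      have hm : (N.step D st).m r' = 2 * N.m r' := by
        have := h.fresh r' hr
        simp only [Net.step]
        rw [if_neg (by omega), if_neg hs]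
      rw [e1, hm, hcount]
      rw [hcount] at hA2
      -- bounds
      set w0 : ℤ := -(10 * N.X + 5) - (N.ys st).length - 1 with hw0
      have hAw : ∀ a ∈ A, w0 < a ∧ a < -(10 * N.X + 5) := by
        intro a ha
        have := hA4 a ha
        omega
      have hL : ∀ g ∈ legs r' N.W, -(10 * N.X) ≤ 10 * g.2 ∧ 10 * g.2 ≤ 10 * N.X := by
        intro g hg
        obtain ⟨e, he, hge⟩ := legs_mem hg
        have := h.bound e he
        omega
      obtain ⟨w', hw', hw''⟩ := lastp_start (D := D) A w0
      have hk0 : (fun _ : ℕ → Bool => (0 : ℤ)) = (fun s => (0 : ℤ) * dg D s) := by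
        funext s; ring
      have hfl1 : flow (fun _ : ℕ → Bool => (0 : ℤ)) (A.map (fun a => (⟨dg D, up D 0 a⟩ : Leg))) =
          fun s => 0 + (N.m r' : ℤ) * dg D s := by
        funext s
        rw [flow_start, hA2]
      have hfl2 : flow (fun s => 0 + (N.m r' : ℤ) * dg D s) ((legs r' N.W).map
            (fun g => (⟨g.1.inc, up D g.1.p (10 * g.2)⟩ : Leg))) =
          fun s => (N.m r' : ℤ) * dg D s := by
        funext s
        rw [flow_young, flow_add (k := fun _ => 0) (k' := fun s => (N.m r' : ℤ) * dg D s),
          h.total r' hr]
        ring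
      have hm0 : (0 : ℤ) ≤ (N.m r' : ℤ) := by positivity
      constructor
      · have hfin : Cert (D + 1) ((2 * N.m r' : ℕ) : ℤ) (fun _ => 0) (up D 0 w0)
            (A.map (fun a => (⟨dg D, up D 0 a⟩ : Leg)) ++ ((legs r' N.W).map
            (fun g => (⟨g.1.inc, up D g.1.p (10 * g.2)⟩ : Leg)) ++
            List.replicate (N.m r') ⟨fun s => - dg D s, up D 0 (10 * N.X + 5)⟩)) := by
          push_cast
          rw [Cert_append, Cert_append, hfl1, hfl2, hw']
          refine ⟨?_, ?_, ?_⟩
          · rw [hk0]
            exact Cert_start A 0 w0 le_rfl (by rw [hA2]; omega) (fun a ha => (hAw a ha).1) hA3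
          · refine Cert_young _ (fun _ => 0) 0 w' ?_ (legs_sorted h.sorted) (h.cert r' hr)
            intro g hg
            have := hL g hg
            rcases hw'' with rfl | hw''
            · omega
            · have := hAw _ hw''
              omega
          · obtain ⟨q', w'', h5, h6⟩ := lastp_young (D := D) (legs r' N.W) (10 * N.X + 5) 0
              w' (by
                rcases hw'' with rfl | hw''
                · omega
                · have := hAw _ hw''
                  omega) (fun g hg => by have := hL g hg; omega)
            refine Cert_end_aux _ _ _ (by omega) ?_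
            intro s s' hs1 hs2
            rw [h5, LexLe_up]
            exact Or.inl ⟨h6, hs1, hs2⟩
        exact Cert_zero (fun _ _ => rfl) hfin
      · rw [flow_append, flow_append, hfl1, hfl2]
        funext s
        rw [flow_end]
        ring
  refine ⟨by simp only [Net.step]; omega, ?_, ?_, ?_, ?_, ?_, fun r hr => (hall r hr).1, fun r hr => (hall r hr).2⟩
  · -- nodup
    simp only [Net.step]
    rw [List.nodup_flatMap]
    constructor
    · intro r hr
      unfold blockR
      split_ifs with hs
      · have a1 := hfr1 r hr r
        have a2 := hfr2 r hr r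
        simp [a1, a2, a1.symm]
      · simp
    · refine (List.Nodup.pairwise_of_forall_ne h.nodup ?_)
      intro r hr r' hr' hne
      simp only [Function.onFun]
      intro b hb hb'
      unfold blockR at hb hb'
      have a1 := hfr1 r hr
      have a2 := hfr2 r hr
      have a3 := hfr1 r' hr'
      have a4 := hfr2 r' hr'
      split_ifs at hb hb' <;>
        simp only [List.mem_cons, List.not_mem_nil, or_false] at hb hb'
      · rcases hb with rfl | rfl | rfl <;> rcases hb' with hb' | hb' | hb'
        · simp at hb'; exact hne hb'
        · exact a4 _ hb'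
        · simp at hb'
        · exact a2 _ hb'.symm
        · exact hne hb'
        · exact a1 _ hb'.symm
        · simp at hb'
        · exact a3 _ hb'
        · simp at hb'; exact hne hb'
      · rcases hb with rfl | rfl | rfl
        · exact a4 _ hb'
        · exact hne hb'
        · exact a3 _ hb'
      · rcases hb' with rfl | rfl | rfl
        · exact a2 _ hb
        · exact hne hb.symm
        · exact a1 _ hb
      · exact hne (hb.symm.trans hb')
  · -- fresh
    intro r hr
    simp only [Net.step, List.mem_flatMap] at hr
    obtain ⟨r', hr', hr⟩ := hr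
    have := h.fresh r' hr'
    unfold blockR at hr
    split_ifs at hr <;> simp only [List.mem_cons, List.not_mem_nil, or_false] at hr
    · rcases hr with rfl | rfl | rfl
      · simp [Row.lv]
      · omega
      · simp [Row.lv]
    · subst hr; omega
  · -- sorted
    simp only [Net.step]
    rw [List.pairwise_append, List.pairwise_append]
    refine ⟨starts_sorted _ _ _, ⟨?_, ends_sorted _ _ _ _, ?_⟩, ?_⟩
    · rw [List.pairwise_flatMap]
      refine ⟨fun e _ => block_sorted, ?_⟩
      refine h.sorted.imp ?_
      intro a b hab x hx y hy
      have := block_x x hx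
      have := block_x y hy
      omega
    · intro x hx y hy
      rw [List.mem_flatMap] at hx
      obtain ⟨e, he, hx⟩ := hx
      have := block_x x hx
      have := (ends_spec _ _ _ _ y hy).1
      have := h.bound e he
      omega
    · intro x hx y hy
      have h1 := starts_spec _ _ _ x hx
      rw [List.mem_append] at hy
      rcases hy with hy | hy
      · rw [List.mem_flatMap] at hy
        obtain ⟨e, he, hy⟩ := hy
        have := block_x y hy
        have := h.bound e he
        omega
      · have h2 := (ends_spec _ _ _ _ y hy).1
        omega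
  · -- bound
    intro f hf
    simp only [Net.step, List.mem_append] at hf ⊢
    rcases hf with hf | hf | hf
    · have h1 := starts_spec _ _ _ f hf
      omega
    · rw [List.mem_flatMap] at hf
      obtain ⟨e, he, hf⟩ := hf
      have := block_x f hf
      have := h.bound e he
      omega
    · have h1 := ends_spec _ _ _ _ f hf
      omega
  · -- letters
    intro f hf
    simp only [Net.step, List.mem_append] at hf ⊢
    rcases hf with hf | hf | hf
    · obtain ⟨_, _, r, hr, x, p, rfl⟩ := starts_spec _ _ _ f hf
      exact ok_src (List.mem_flatMap.mpr ⟨r, (ys_mem hr).1, blockR_mem D st r⟩) _ _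
    · rw [List.mem_flatMap] at hf
      obtain ⟨e, he, hf⟩ := hf
      exact block_ok (h.ok e he) f hf
    · obtain ⟨_, _, r, hr, x, hx, rfl⟩ := ends_spec _ _ _ _ f hf
      refine ok_snk (List.mem_flatMap.mpr ⟨r, (ys_mem hr).1, blockR_mem D st r⟩) _ _ ?_
      simp only [up, Function.update_self]
      omega

end H73RN
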