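import Pool.Agent.H73.RN.Real
import Pool.Agent.H81.RN.Defs

/-!
# From the sign certificate to the grid certificate
-/

set_option autoImplicit false

namespace H73RN

open Filter Finset
open Pool.Agent.RN (Word Kind GC Claim)

/-- the word of a net -/
def toWord (N : Net) : Word where
  R := N.R.length
  N := N.W.length
  row := fun j => match N.W[j]? with
    | some e => N.R.idxOf e.lo
    | none => 0
  kind := fun j => match N.W[j]? with
    | some e => (match e.hi with
      | none => Kind.real
      | some _ => Kind.wire)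
    | none => Kind.none
  lo := fun j => match N.W[j]? with
    | some e => e.c.toNat
    | none => 0
  up := fun j => match N.W[j]? with
    | some e => e.c'.toNat
    | none => 0

section
variable (N : Net) {j : ℕ} (hj : j < N.W.length)
include hj

lemma tw_row : (toWord N).row j = N.R.idxOf N.W[j].lo := by
  simp only [toWord, List.getElem?_eq_getElem hj]

lemma tw_lo : (toWord N).lo j = N.W[j].c.toNat := by
  simp only [toWord, List.getElem?_eq_getElem hj]

lemma tw_up : (toWord N).up j = N.W[j].c'.toNat := by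
  simp only [toWord, List.getElem?_eq_getElem hj]

lemma tw_real (h : N.W[j].hi = none) : (toWord N).kind j = Kind.real := by
  simp only [toWord, List.getElem?_eq_getElem hj, h]

lemma tw_wire {b : Row} (h : N.W[j].hi = some b) : (toWord N).kind j = Kind.wire := by
  simp only [toWord, List.getElem?_eq_getElem hj, h]

end

/-- bits -/
def zz (N : Net) (s : ℕ → Bool) (j : ℕ) : ℕ := match N.W[j]? with
  | some e => (e.y s).toNat
  | none => 0

lemma zz_eq (N : Net) (s : ℕ → Bool) {j : ℕ} (hj : j < N.W.length) :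
    zz N s j = (N.W[j].y s).toNat := by
  simp only [zz, List.getElem?_eq_getElem hj]

/-- flow of the row `ρ` before the letter `j` -/
def kz (N : Net) (s : ℕ → Bool) (ρ : Row) (j : ℕ) : ℤ :=
  flow (fun _ => 0) ((legs ρ (N.W.take j)).map Prod.fst) s

/-- potential of the last leg of the row `ρ` before the letter `j` -/
def qz (N : Net) (ρ : Row) (j : ℕ) : ℕ → ℤ :=
  lastp 0 ((legs ρ (N.W.take j)).map Prod.fst)

lemma lastp_append (L1 L2 : List Leg) : ∀ q, lastp q (L1 ++ L2) = lastp (lastp q L1) L2 := by
  induction L1 with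
  | nil => intro q; rfl
  | cons g L1 ih => intro q; simp only [List.cons_append, lastp, ih]

lemma flow_split {D : ℕ} {m : ℤ} {k : (ℕ → Bool) → ℤ} {q : ℕ → ℤ} {L1 L2 : List Leg}
    (h : Cert D m k q (L1 ++ L2)) (hm : 0 ≤ m) (hf : flow k (L1 ++ L2) = fun _ => 0)
    (s : ℕ → Bool) : 0 ≤ flow k L1 s ∧ flow k L1 s ≤ m := by
  rw [Cert_append] at h
  cases L2 with
  | nil =>
    rw [List.append_nil] at hf
    rw [hf]
    exact ⟨le_rfl, hm⟩
  | cons g L2 => exact h.2.1 s

section

variable {D : ℕ} {N : Net} (h : Good D N)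
include h

omit h in
lemma legs_take_drop (ρ : Row) (j : ℕ) :
    (legs ρ N.W).map Prod.fst =
      (legs ρ (N.W.take j)).map Prod.fst ++ (legs ρ (N.W.drop j)).map Prod.fst := by
  rw [← List.map_append, ← legs_append, List.take_append_drop]

lemma kz_bounds {ρ : Row} (hρ : ρ ∈ N.R) (s : ℕ → Bool) (j : ℕ) :
    0 ≤ kz N s ρ j ∧ kz N s ρ j ≤ N.m ρ := by
  have h1 := h.cert ρ hρ
  have h2 := h.total ρ hρ
  rw [legs_take_drop ρ j] at h1 h2
  exact flow_split h1 (by positivity) h2 s

omit h in
lemma take_succ_legs (ρ : Row) {j : ℕ} (hj : j < N.W.length) :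
    (legs ρ (N.W.take (j + 1))).map Prod.fst =
      (legs ρ (N.W.take j)).map Prod.fst ++ ((leg ρ N.W[j]).toList).map Prod.fst := by
  rw [List.take_succ_eq_append_getElem hj, legs_append, List.map_append]
  unfold legs
  rw [List.filterMap_cons]
  cases leg ρ N.W[j] <;> rfl

lemma kz_succ_some {ρ : Row} {j : ℕ} (hj : j < N.W.length) {g : Leg × ℤ}
    (hg : leg ρ N.W[j] = some g) (s : ℕ → Bool) :
    kz N s ρ (j + 1) = kz N s ρ j + g.1.inc s := by
  unfold kz
  rw [take_succ_legs ρ hj, flow_append, hg]
  rfl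

lemma kz_succ_none {ρ : Row} {j : ℕ} (hj : j < N.W.length)
    (hg : leg ρ N.W[j] = none) (s : ℕ → Bool) :
    kz N s ρ (j + 1) = kz N s ρ j := by
  unfold kz
  rw [take_succ_legs ρ hj, flow_append, hg]
  rfl

lemma qz_succ_some {ρ : Row} {j : ℕ} (hj : j < N.W.length) {g : Leg × ℤ}
    (hg : leg ρ N.W[j] = some g) : qz N ρ (j + 1) = g.1.p := by
  unfold qz
  rw [take_succ_legs ρ hj, lastp_append, hg]
  rfl

lemma qz_succ_none {ρ : Row} {j : ℕ} (hj : j < N.W.length)
    (hg : leg ρ N.W[j] = none) : qz N ρ (j + 1) = qz N ρ j := by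
  unfold qz
  rw [take_succ_legs ρ hj, lastp_append, hg]
  rfl

lemma mono_step {ρ : Row} (hρ : ρ ∈ N.R) {j : ℕ} (hj : j < N.W.length) {g : Leg × ℤ}
    (hg : leg ρ N.W[j] = some g) (s s' : ℕ → Bool) (hs : kz N s ρ j < kz N s' ρ j) :
    LexLe D (fun l => g.1.p l - qz N ρ j l) s s' := by
  have h1 := h.cert ρ hρ
  rw [legs_take_drop ρ j, Cert_append] at h1
  have h2 : (legs ρ (N.W.drop j)).map Prod.fst =
      g.1 :: (legs ρ (N.W.drop (j + 1))).map Prod.fst := by
    rw [List.drop_eq_getElem_cons hj]
    unfold legs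
    rw [List.filterMap_cons, hg]
    rfl
  rw [h2] at h1
  exact h1.2.2.1 s s' hs

lemma idx_infix {a b : Row} (hab : [a, b] <:+: N.R) : N.R.idxOf b = N.R.idxOf a + 1 := by
  obtain ⟨P, Q, hPQ⟩ := hab
  have hnd := h.nodup
  rw [← hPQ] at hnd ⊢
  have h1 : a ∉ P := by
    intro hc
    simp only [List.append_assoc, List.nodup_append] at hnd
    exact hnd.2.2 a hc a (by simp) rfl
  have h2 : b ∉ P := by
    intro hc
    simp only [List.append_assoc, List.nodup_append] at hnd
    exact hnd.2.2 b hc b (by simp) rfl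
  have h3 : a ≠ b := by
    intro hc
    simp only [List.append_assoc, List.nodup_append] at hnd
    have := hnd.2.1
    simp [hc] at this
  rw [List.append_assoc, List.idxOf_append_of_notMem h1, List.idxOf_append_of_notMem h2]
  simp [List.idxOf_cons, h3]

lemma row_eq_iff {r : ℕ} (hr : r < N.R.length) {a : Row} (ha : a ∈ N.R) :
    r = N.R.idxOf a ↔ a = N.R[r] := by
  constructor
  · intro h1
    subst h1
    rw [List.getElem_idxOf]
  · intro h1
    rw [h1, h.nodup.idxOf_getElem r hr]

end

/-- extension of a digit vector -/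
def ext {D : ℕ} (s : Fin D → Bool) (l : ℕ) : Bool := if h : l < D then s ⟨l, h⟩ else false

theorem toWord_WF {D : ℕ} {N : Net} (h : Good D N) (hl : ∃ e ∈ N.W, e.hi = none) :
    (toWord N).WF where
  real_lt := by
    intro j hj _
    simp only [toWord] at hj ⊢
    rw [List.getElem?_eq_getElem hj]
    exact List.idxOf_lt_length_iff.mpr (h.ok _ (List.getElem_mem hj)).lo_mem
  wire_lt := by
    intro j hj hk
    simp only [toWord] at hj hk ⊢
    rw [List.getElem?_eq_getElem hj] at hk ⊢
    simp only at hk ⊢
    cases hhi : N.W[j].hi with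
    | none => simp [hhi] at hk
    | some b =>
      have h1 := (h.ok _ (List.getElem_mem hj)).hi b hhi
      rw [← idx_infix h h1]
      exact List.idxOf_lt_length_iff.mpr (h1.subset (by simp))
  lo_le := by
    intro j
    simp only [toWord]
    cases hj : N.W[j]? with
    | none => simp
    | some e =>
      have := (h.ok e (List.mem_of_getElem? hj)).c01
      simp only
      omega
  up_le := by
    intro j
    simp only [toWord]
    cases hj : N.W[j]? with
    | none => simp
    | some e =>
      have := (h.ok e (List.mem_of_getElem? hj)).c01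
      simp only
      omega
  exists_real := by
    obtain ⟨e, he, hn⟩ := hl
    obtain ⟨j, hj, rfl⟩ := List.getElem_of_mem he
    refine ⟨j, hj, ?_⟩
    simp only [toWord]
    rw [List.getElem?_eq_getElem hj]
    simp [hn]

theorem toClaim {D : ℕ} {N : Net} (h : Good D N) (hl : ∀ l < D, ∃ e ∈ N.W, e.hi = none ∧ e.lev = l)
    (m : ℕ) (hm : ∀ r ∈ N.R, N.m r ≤ m) : Claim (toWord N) m (Fin D → Bool) := by
  classical
  intro X hX1 hX
  -- monotone positions
  have hXlt : ∀ i j : ℕ, i < j → X i + 1 ≤ X j := by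
    intro i j hij
    induction j, hij using Nat.le_induction with
    | base => exact hX i
    | succ n _ ih => have := hX n; linarith
  set B : ℝ := X N.W.length with hB
  have hB1 : 1 ≤ B := hX1 _
  set H : ℝ := 4 * B with hH
  have hH1 : 1 ≤ H := by rw [hH]; linarith
  have hH0 : 0 < H := by linarith
  let η : ℕ → ℝ := fun l => (H ^ l)⁻¹
  let Y : ℕ → ℝ := fun j => match N.W[j]? with
    | some e => if e.hi = none ∧ e.eps = false then -(B * H ^ e.lev) else 0
    | none => 0
  -- the prescribed values
  let v : ℕ → Fin N.W.length → ℝ := fun l i =>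
    X i + if N.W[(i : ℕ)].hi = none ∧ N.W[(i : ℕ)].eps = false ∧ N.W[(i : ℕ)].lev < l then η l * Y i else 0
  have hYi : ∀ (i : ℕ) (hi : i < N.W.length), N.W[(i : ℕ)].hi = none → N.W[(i : ℕ)].eps = false →
      Y i = -(B * H ^ N.W[(i : ℕ)].lev) := by
    intro i hi h1 h2
    simp only [Y]
    rw [List.getElem?_eq_getElem hi]
    simp [h1, h2]
  have hYi0 : ∀ (i : ℕ) (hi : i < N.W.length), N.W[(i : ℕ)].eps = true → Y i = 0 := by
    intro i hi h1
    simp only [Y]
    rw [List.getElem?_eq_getElem hi]
    simp [h1]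
  have hv : ∀ l (i : Fin N.W.length), X i - 1 / 4 ≤ v l i ∧ v l i ≤ X i := by
    intro l i
    simp only [v]
    split_ifs with hc
    · rw [hYi i i.2 hc.1 hc.2.1]
      simp only [η]
      have h1 : 0 < (H ^ l)⁻¹ := by positivity
      have h2 : (H ^ l)⁻¹ * (B * H ^ N.W[(i : ℕ)].lev) ≤ 1 / 4 := by
        have h3 : H ^ (N.W[(i : ℕ)].lev + 1) ≤ H ^ l := pow_le_pow_right₀ hH1 hc.2.2
        rw [inv_mul_le_iff₀ (by positivity)]
        have h4 : B * H ^ N.W[(i : ℕ)].lev * 4 = H ^ (N.W[(i : ℕ)].lev + 1) := by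
          rw [pow_succ]
          have : H = 4 * B := hH
          nlinarith
        linarith
      have h5 : 0 ≤ (H ^ l)⁻¹ * (B * H ^ N.W[(i : ℕ)].lev) := by positivity
      have h6 : (H ^ l)⁻¹ * -(B * H ^ N.W[(i : ℕ)].lev) =
          -((H ^ l)⁻¹ * (B * H ^ N.W[(i : ℕ)].lev)) := by ring
      rw [h6]
      constructor <;> linarith
    · constructor <;> linarith
  have hxs : StrictMono (fun i : Fin N.W.length => N.W[(i : ℕ)].x) := by
    intro i j hij
    have := List.pairwise_iff_getElem.mp h.sorted i j i.2 j.2 hij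
    exact this
  have hψ : ∀ l, ∃ ψ : ℤ → ℝ, StrictMono ψ ∧ (∀ z, 0 < ψ z) ∧ ∀ i : Fin N.W.length, ψ (N.W[(i : ℕ)].x) = v l i := by
    intro l
    refine interp _ _ hxs ?_ 0 ?_
    · intro i j hij
      have h1 := hv l i
      have h2 := hv l j
      have h3 := hXlt i j hij
      linarith
    · intro i
      have h1 := hv l i
      have := hX1 i
      linarith
  choose ψ hψ1 hψ2 hψ3 using hψ
  -- the scale
  have hsign : ∀ p q : ℕ → ℤ, SignAgree (fun l => p l - q l) (fun l => ψ l (p l) - ψ l (q l)) := by
    intro p q l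
    refine ⟨fun hpos => ?_, fun hneg => ?_, fun h0 => ?_⟩
    · exact sub_pos.mpr (hψ1 l (by simpa [sub_pos] using hpos))
    · exact sub_neg.mpr (hψ1 l (by simpa [sub_neg] using hneg))
    · have : p l = q l := by simp only at h0; omega
      simp only
      rw [this, sub_self]
  have hT1 : ∀ᶠ T : ℝ in atTop, ∀ (r : Fin N.R.length) (j : Fin N.W.length), ∀ s s' : ℕ → Bool,
      LexLe D (fun l => N.W[(j : ℕ)].p l - qz N N.R[r] j l) s s' →
        F D (fun l => ψ l (N.W[(j : ℕ)].p l) - ψ l (qz N N.R[r] j l)) T s' ≤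
          F D (fun l => ψ l (N.W[(j : ℕ)].p l) - ψ l (qz N N.R[r] j l)) T s := by
    rw [eventually_all]
    intro r
    rw [eventually_all]
    intro j
    exact lex_real _ _ (hsign _ _) D
  have hδ0 : ∀ j : Fin N.W.length, N.W[(j : ℕ)].hi = none → ∀ l, N.W[(j : ℕ)].lev < l → l < D →
      ψ l (N.W[(j : ℕ)].p l) - (X j + η l * Y j) = 0 := by
    intro j hj l hl1 hl2
    rw [(h.ok _ (List.getElem_mem j.2)).above hj l hl1 hl2, hψ3 l j]
    simp only [v]
    by_cases he : N.W[(j : ℕ)].eps = false
    · rw [if_pos ⟨hj, he, hl1⟩, sub_self]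
    · rw [hYi0 j j.2 (by simpa using he)]
      simp
  have hδs : ∀ j : Fin N.W.length, N.W[(j : ℕ)].hi = none → N.W[(j : ℕ)].eps = false →
      0 < ψ N.W[(j : ℕ)].lev (N.W[(j : ℕ)].p N.W[(j : ℕ)].lev) - (X j + η N.W[(j : ℕ)].lev * Y j) := by
    intro j hj he
    rw [hYi j j.2 hj he]
    simp only [η]
    have h1 := hψ2 N.W[(j : ℕ)].lev (N.W[(j : ℕ)].p N.W[(j : ℕ)].lev)
    have h2 : (H ^ N.W[(j : ℕ)].lev)⁻¹ * -(B * H ^ N.W[(j : ℕ)].lev) = -B := by
      field_simp
    rw [h2]
    have h3 := hXlt j _ j.2
    linarith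
  have hδk : ∀ j : Fin N.W.length, N.W[(j : ℕ)].hi = none → N.W[(j : ℕ)].eps = true →
      ψ N.W[(j : ℕ)].lev (N.W[(j : ℕ)].p N.W[(j : ℕ)].lev) - (X j + η N.W[(j : ℕ)].lev * Y j) < 0 := by
    intro j hj he
    rw [hYi0 j j.2 he]
    have h1 := hψ1 N.W[(j : ℕ)].lev ((h.ok _ (List.getElem_mem j.2)).birth hj he)
    rw [hψ3 N.W[(j : ℕ)].lev j] at h1
    simp only [v] at h1
    rw [if_neg (by simp [he])] at h1
    linarith
  have hT2 : ∀ᶠ T : ℝ in atTop, ∀ (j : Fin N.W.length), N.W[(j : ℕ)].hi = none → ∀ s : ℕ → Bool,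
      (0 < sgn s N.W[(j : ℕ)].lev * (ψ N.W[(j : ℕ)].lev (N.W[(j : ℕ)].p N.W[(j : ℕ)].lev) -
          (X j + η N.W[(j : ℕ)].lev * Y j)) →
        0 < F D (fun l => ψ l (N.W[(j : ℕ)].p l) - (X j + η l * Y j)) T s) ∧
      (sgn s N.W[(j : ℕ)].lev * (ψ N.W[(j : ℕ)].lev (N.W[(j : ℕ)].p N.W[(j : ℕ)].lev) -
          (X j + η N.W[(j : ℕ)].lev * Y j)) < 0 →
        F D (fun l => ψ l (N.W[(j : ℕ)].p l) - (X j + η l * Y j)) T s < 0) := by
    rw [eventually_all]
    intro j
    by_cases hj : N.W[(j : ℕ)].hi = none
    · have hlev := (h.ok _ (List.getElem_mem j.2)).lev_lt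
      have hne : ψ N.W[(j : ℕ)].lev (N.W[(j : ℕ)].p N.W[(j : ℕ)].lev) - (X j + η N.W[(j : ℕ)].lev * Y j) ≠ 0 := by
        cases he : N.W[(j : ℕ)].eps with
        | false => exact (hδs j hj he).ne'
        | true => exact (hδk j hj he).ne
      filter_upwards [leaf_real D N.W[(j : ℕ)].lev
        (fun l => ψ l (N.W[(j : ℕ)].p l) - (X j + η l * Y j)) hlev (hδ0 j hj) hne] with T hT _ s
      exact hT s
    · filter_upwards with T hc
      exact absurd hc hj
  obtain ⟨T, hT1, hT2⟩ := (hT1.and hT2).exists
  -- the data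
  let ρ : ℕ → Row := fun r => N.R.getD r Row.root
  have hρ : ∀ r (hr : r < N.R.length), ρ r = N.R[r] := by
    intro r hr
    simp only [ρ]
    rw [List.getD_eq_getElem _ _ hr]
  have hρm : ∀ r, r < N.R.length → ρ r ∈ N.R := by
    intro r hr
    rw [hρ r hr]
    exact List.getElem_mem hr
  refine ⟨Y, fun s => F D (fun _ => 1) T (ext s), fun s => F D η T (ext s),
    fun s r j => F D (fun l => ψ l (qz N (ρ r) (j + 1) l)) T (ext s),
    fun s r j => (kz N (ext s) (ρ r) j).toNat,
    fun s j => zz N (ext s) j, ?_⟩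
  have hαβ : ∀ (s : Fin D → Bool) (j : ℕ), F D (fun _ => 1) T (ext s) * X j + F D η T (ext s) * Y j =
      F D (fun l => X j + η l * Y j) T (ext s) := by
    intro s j
    unfold F
    rw [sum_mul, sum_mul, ← sum_add_distrib]
    refine sum_congr rfl fun l _ => ?_
    ring
  have hFsub : ∀ (f g : ℕ → ℝ) (s : ℕ → Bool), F D f T s - F D g T s =
      F D (fun l => f l - g l) T s := by
    intro f g s
    unfold F
    rw [← sum_sub_distrib]
    refine sum_congr rfl fun l _ => ?_
    ring
  have hlegrow : ∀ j (hj : j < N.W.length), (leg (ρ (N.R.idxOf N.W[j].lo)) N.W[j]) =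
      some (⟨fun s => N.W[j].c - N.W[j].y s, N.W[j].p⟩, N.W[j].x) := by
    intro j hj
    have h1 := (h.ok _ (List.getElem_mem hj)).lo_mem
    have h2 : N.R.idxOf N.W[j].lo < N.R.length := List.idxOf_lt_length_iff.mpr h1
    have h3 : ρ (N.R.idxOf N.W[j].lo) = N.W[j].lo := by
      rw [hρ _ h2, List.getElem_idxOf]
    rw [h3]
    unfold leg
    rw [if_pos rfl]
  have hqrow : ∀ j (hj : j < N.W.length), qz N (ρ (N.R.idxOf N.W[j].lo)) (j + 1) = N.W[j].p := by
    intro j hj
    rw [qz_succ_some h hj (hlegrow j hj)]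
  constructor
  · -- bit
    intro s j
    simp only [zz]
    cases hj : N.W[j]? with
    | none => simp
    | some e =>
      have := y_le e (ext s)
      simp only
      omega
  · -- start
    intro s r _
    simp [kz, legs, flow]
  · -- fin
    intro s r hr
    have h1 := h.total _ (hρm r hr)
    simp only [kz, toWord, List.take_length, h1, Int.toNat_zero]
  · -- cap
    intro s r j hr _
    have h1 := kz_bounds h (hρm r hr) (ext s) j
    have h2 := hm _ (hρm r hr)
    omega
  · -- step
    intro s r j hr hj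
    have hj' : j < N.W.length := hj
    have hr' : r < N.R.length := hr
    have hok := h.ok _ (List.getElem_mem hj')
    have b1 := kz_bounds h (hρm r hr) (ext s) j
    have b2 := kz_bounds h (hρm r hr) (ext s) (j + 1)
    have b3 := y_nonneg N.W[j] (ext s)
    have b4 := y_le N.W[j] (ext s)
    have b5 := hok.c01
    have hri := row_eq_iff h hr' hok.lo_mem
    rw [← hρ r hr'] at hri
    unfold Word.take Word.c
    cases hhi : N.W[j].hi with
    | none =>
      rw [tw_real N hj' hhi, tw_row N hj', tw_lo N hj', zz_eq N _ hj']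
      simp only
      by_cases hrow : r = N.R.idxOf N.W[j].lo
      · have hlo := hri.mp hrow
        have hleg : leg (ρ r) N.W[j] =
            some (⟨fun s => N.W[j].c - N.W[j].y s, N.W[j].p⟩, N.W[j].x) := by
          unfold leg
          rw [if_pos hlo]
        have hk := kz_succ_some h hj' hleg (ext s)
        simp only at hk
        rw [if_pos hrow, if_pos hrow]
        omega
      · have hlo : ¬ N.W[j].lo = ρ r := fun hc => hrow (hri.mpr hc)
        have hleg : leg (ρ r) N.W[j] = none := by
          unfold leg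
          rw [if_neg hlo, if_neg (by rw [hhi]; simp)]
        have hk := kz_succ_none h hj' hleg (ext s)
        rw [if_neg hrow, if_neg hrow]
        omega
    | some b =>
      rw [tw_wire N hj' hhi, tw_row N hj', tw_lo N hj', tw_up N hj', zz_eq N _ hj']
      simp only
      have hinf := hok.hi b hhi
      have hidx := idx_infix h hinf
      have hbm : b ∈ N.R := hinf.subset (by simp)
      have hrb := row_eq_iff h hr' hbm
      rw [← hρ r hr'] at hrb
      by_cases hrow : r = N.R.idxOf N.W[j].lo
      · have hlo := hri.mp hrow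
        have hleg : leg (ρ r) N.W[j] =
            some (⟨fun s => N.W[j].c - N.W[j].y s, N.W[j].p⟩, N.W[j].x) := by
          unfold leg
          rw [if_pos hlo]
        have hk := kz_succ_some h hj' hleg (ext s)
        simp only at hk
        rw [if_pos hrow, if_pos hrow]
        omega
      · have hlo : ¬ N.W[j].lo = ρ r := fun hc => hrow (hri.mpr hc)
        rw [if_neg hrow, if_neg hrow]
        by_cases hrow2 : r = N.R.idxOf N.W[j].lo + 1
        · have hb : b = ρ r := hrb.mp (by rw [hidx]; exact hrow2)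
          have hleg : leg (ρ r) N.W[j] =
              some (⟨fun s => N.W[j].c' - 1 + N.W[j].y s, N.W[j].p⟩, N.W[j].x) := by
            unfold leg
            rw [if_neg hlo, if_pos (by rw [hhi, hb])]
          have hk := kz_succ_some h hj' hleg (ext s)
          simp only at hk
          rw [if_pos hrow2, if_pos hrow2]
          omega
        · have hb : ¬ b = ρ r := fun hc => hrow2 (by rw [← hidx]; exact hrb.mpr hc)
          have hleg : leg (ρ r) N.W[j] = none := by
            unfold leg
            rw [if_neg hlo, if_neg (by rw [hhi]; simpa using hb)]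
          have hk := kz_succ_none h hj' hleg (ext s)
          rw [if_neg hrow2, if_neg hrow2]
          omega
  · -- mono
    intro s s' r j hr hj hlt
    have hj' : j + 1 < N.W.length := hj
    have hr' : r < N.R.length := hr
    skip
    by_contra hcon
    have hk : kz N (ext s') (ρ r) (j + 1) < kz N (ext s) (ρ r) (j + 1) := by omega
    cases hleg : leg (ρ r) N.W[j + 1] with
    | none =>
      have h1 := qz_succ_none h hj' hleg
      rw [h1] at hlt
      simp at hlt
    | some g =>
      have h1 := mono_step h (hρm r hr) hj' hleg _ _ hk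
      have h2 := qz_succ_some h hj' hleg
      have hp : g.1.p = N.W[j + 1].p := by
        unfold leg at hleg
        split_ifs at hleg <;> simp only [Option.some.injEq] at hleg <;> rw [← hleg]
      rw [hp] at h1 h2
      rw [hρ r hr'] at h1 h2 hlt
      have h3 := hT1 ⟨r, hr'⟩ ⟨j + 1, hj'⟩ _ _ h1
      simp only [Fin.getElem_fin] at h3
      rw [h2] at hlt
      rw [← hFsub, ← hFsub] at h3
      linarith
  · -- wire
    intro s j hj hk
    have hj' : j < N.W.length := hj
    have hok := h.ok _ (List.getElem_mem hj')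
    skip
    rw [tw_row N hj']
    cases hhi : N.W[j].hi with
    | none =>
      rw [tw_real N hj' hhi] at hk
      exact absurd hk (by simp)
    | some b =>
      have hinf := hok.hi b hhi
      have hidx := idx_infix h hinf
      have hbm : b ∈ N.R := hinf.subset (by simp)
      have hlt : N.R.idxOf b < N.R.length := List.idxOf_lt_length_iff.mpr hbm
      have h3 : ρ (N.R.idxOf b) = b := by rw [hρ _ hlt, List.getElem_idxOf]
      have hne : ¬ N.W[j].lo = b := by
        intro hc
        rw [hc] at hidx
        omega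
      have hleg : leg (ρ (N.R.idxOf b)) N.W[j] =
              some (⟨fun s => N.W[j].c' - 1 + N.W[j].y s, N.W[j].p⟩, N.W[j].x) := by
        rw [h3]
        unfold leg
        rw [if_neg hne, if_pos hhi]
      have h4 := qz_succ_some h hj' hleg
      rw [← hidx, hqrow j hj', h4]
  · -- used
    intro s j hj hk hz
    have hj' : j < N.W.length := hj
    skip
    rw [zz_eq N _ hj'] at hz
    rw [tw_row N hj']
    have hhi : N.W[j].hi = none := by
      cases hhi : N.W[j].hi with
      | none => rfl
      | some b =>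
        rw [tw_wire N hj' hhi] at hk
        exact absurd hk (by simp)
    rw [hαβ, hqrow j hj', ← sub_pos, hFsub]
    have hlev : ext s N.W[j].lev = N.W[j].eps := by
      unfold Ltr.y at hz
      by_contra hc
      simp [hc] at hz
    refine (hT2 ⟨j, hj'⟩ hhi (ext s)).1 ?_
    simp only [Fin.getElem_fin]
    cases he : N.W[j].eps with
    | false =>
      have := hδs ⟨j, hj'⟩ hhi he
      simp only [Fin.getElem_fin] at this
      simp only [sgn, hlev, he]
      simpa using this
    | true =>
      have := hδk ⟨j, hj'⟩ hhi he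
      simp only [Fin.getElem_fin] at this
      simp only [sgn, hlev, he, if_true]
      linarith
  · -- unused
    intro s j hj hk hz
    have hj' : j < N.W.length := hj
    skip
    rw [zz_eq N _ hj'] at hz
    rw [tw_row N hj']
    have hhi : N.W[j].hi = none := by
      cases hhi : N.W[j].hi with
      | none => rfl
      | some b =>
        rw [tw_wire N hj' hhi] at hk
        exact absurd hk (by simp)
    rw [hαβ, hqrow j hj', ← sub_neg, hFsub]
    have hlev : ext s N.W[j].lev ≠ N.W[j].eps := by
      intro hc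
      simp [Ltr.y, hc] at hz
    refine (hT2 ⟨j, hj'⟩ hhi (ext s)).2 ?_
    simp only [Fin.getElem_fin]
    cases he : N.W[j].eps with
    | false =>
      have := hδs ⟨j, hj'⟩ hhi he
      simp only [Fin.getElem_fin] at this
      have hs : ext s N.W[j].lev = true := by rw [he] at hlev; simpa using hlev
      simp only [sgn, hs, if_true]
      linarith
    | true =>
      have := hδk ⟨j, hj'⟩ hhi he
      simp only [Fin.getElem_fin] at this
      have hs : ext s N.W[j].lev = false := by rw [he] at hlev; simpa using hlev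
      simp only [sgn, hs]
      simpa using this
  · -- sep
    intro s s' hss
    obtain ⟨l, hl'⟩ := Function.ne_iff.mp hss
    obtain ⟨e, he, hn', hlev⟩ := hl l l.2
    obtain ⟨j, hj, rfl⟩ := List.getElem_of_mem he
    refine ⟨j, hj, tw_real N hj hn', ?_⟩
    · skip
      rw [zz_eq N _ hj, zz_eq N _ hj]
      simp only [Ltr.y, hlev]
      have e1 : ext s l = s l := by simp [ext]
      have e2 : ext s' l = s' l := by simp [ext]
      rw [e1, e2]
      intro hc
      apply hl'
      cases h1 : s l <;> cases h2 : s' l <;> cases h3 : N.W[j].eps <;>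
        simp [h1, h2, h3] at hc ⊢

end H73RN
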